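import Pool.Agent.Lib.MP_29b1bb_gt.SC.Defs

/-!
# SC-Cv: the second moment matrix of `(1, x)` has the determinant of the covariance matrix

Let `m` be a vector and `S` a matrix; the `(d+1) × (d+1)` matrix `[[1, mᵀ], [m, S]]` has the
determinant `det (S - m mᵀ)` (subtract the multiple `m i` of row `0` from row `i + 1`, then expand
along the column `0`; compare `volM_det` in `Vol.lean`; or `Matrix.det_fromBlocks_one₁₁` after
reindexing).
-/

set_option autoImplicit false

open MeasureTheory Set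

namespace Pool.Agent.Lib.MP_29b1bb_gt

theorem scCv (d : ℕ) (m : Fin d → ℝ) (S : Matrix (Fin d) (Fin d) ℝ) :
    Matrix.det (Matrix.of (Fin.cons (Fin.cons (1 : ℝ) m : Fin (d + 1) → ℝ)
      (fun i => (Fin.cons (m i) (S i) : Fin (d + 1) → ℝ)) : Fin (d + 1) → Fin (d + 1) → ℝ)) =
    Matrix.det (Matrix.of fun i j => S i j - m i * m j) := by
  set B : Matrix (Fin (d + 1)) (Fin (d + 1)) ℝ :=
    Matrix.of (Fin.cons (Fin.cons (1 : ℝ) m : Fin (d + 1) → ℝ)
      (fun i => (Fin.cons (m i) (S i) : Fin (d + 1) → ℝ)) : Fin (d + 1) → Fin (d + 1) → ℝ) with hB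
  set A : Matrix (Fin (d + 1)) (Fin (d + 1)) ℝ :=
    Matrix.of (Fin.cons (Fin.cons (1 : ℝ) m : Fin (d + 1) → ℝ)
      (fun i => (Fin.cons 0 (fun j => S i j - m i * m j) : Fin (d + 1) → ℝ)) :
        Fin (d + 1) → Fin (d + 1) → ℝ) with hA
  have h1 : A.det = B.det := by
    refine Matrix.det_eq_of_forall_row_eq_smul_add_const
      (Fin.cons 0 (fun i => - m i) : Fin (d + 1) → ℝ) 0 rfl ?_
    intro i j
    refine Fin.cases ?_ (fun i => ?_) i
    · simp [hA, hB]
    · refine Fin.cases ?_ (fun j => ?_) j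
      · simp [hA, hB]
      · simp [hA, hB]
        ring
  rw [← h1, Matrix.det_succ_column_zero, Fin.sum_univ_succ]
  have h2 : ∀ i : Fin d, A i.succ 0 = 0 := by
    intro i
    simp [hA]
  have h3 : A 0 0 = 1 := by simp [hA]
  have h4 : A.submatrix (Fin.succAbove 0) Fin.succ = Matrix.of fun i j => S i j - m i * m j := by
    ext i j
    simp [hA, Matrix.submatrix]
  rw [h3, h4, Finset.sum_eq_zero (fun i _ => by rw [h2]; ring)]
  simp

end Pool.Agent.Lib.MP_29b1bb_gt
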