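import Pool.Agent.Lib.MP_29b1bb_gt.SC.Defs

/-!
# SC-Sch: adding a vector to a Gram matrix (Schur complement)

If `det (scGram V) ≠ 0`, `W = Matrix.of V` (`m × n`), `P = 1 - Wᵀ (W Wᵀ)⁻¹ W` is symmetric and
idempotent with trace `n - m`, and `det (scGram (Fin.cons r V)) = det (scGram V) * (r ⬝ᵥ P r)`:
the matrix `scGram (Fin.cons r V)` has the blocks `[[r·r, (W r)ᵀ], [W r, W Wᵀ]]`, and
`det = det (W Wᵀ) * (r·r - (W r)ᵀ (W Wᵀ)⁻¹ (W r))` (`Matrix.det_fromBlocks₂₂` after reindexing
`Fin (m+1) ≃ Fin 1 ⊕ Fin m`).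
Also `det (scGram V) ≥ 0` always (`Matrix.posSemidef_self_mul_conjTranspose`, `PosSemidef.det_nonneg`),
and `det (scGram (Fin.cons r V)) = 0` if `det (scGram V) = 0`: some `w ≠ 0` has `w ᵥ* (W Wᵀ) = 0`
hence `w ᵥ* W = 0` (`Matrix.exists_vecMul_eq_zero_iff`), and `Fin.cons 0 w` kills the larger matrix
(not needed if you only use the inequality below, whose right side is then `0`).
-/

set_option autoImplicit false

open MeasureTheory Set

namespace Pool.Agent.Lib.MP_29b1bb_gt

theorem scGram_nonneg {n m : ℕ} (V : Fin m → Fin n → ℝ) : 0 ≤ (scGram V).det := by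
  have h : (Matrix.of V * (Matrix.of V).conjTranspose).PosSemidef :=
    Matrix.posSemidef_self_mul_conjTranspose (Matrix.of V)
  have h2 : (Matrix.of V).conjTranspose = (Matrix.of V).transpose := by
    ext i j
    simp [Matrix.conjTranspose_apply, Matrix.transpose_apply]
  rw [h2] at h
  exact h.det_nonneg

private def ccvSchEquiv (m : ℕ) : Fin (m + 1) ≃ Fin m ⊕ Unit :=
  (finSuccEquiv m).trans (Equiv.optionEquivSumPUnit (Fin m))

private theorem ccvSchEquiv_symm_inl (m : ℕ) (i : Fin m) :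
    (ccvSchEquiv m).symm (Sum.inl i) = i.succ := by
  simp [ccvSchEquiv]

private theorem ccvSchEquiv_symm_inr (m : ℕ) (u : Unit) :
    (ccvSchEquiv m).symm (Sum.inr u) = 0 := by
  simp [ccvSchEquiv]

private theorem ccvSch_det {n m : ℕ} (V : Fin m → Fin n → ℝ) (hV : (scGram V).det ≠ 0)
    (r : Fin n → ℝ) :
    (scGram (Fin.cons r V : Fin (m + 1) → Fin n → ℝ)).det =
      (scGram V).det * (r ⬝ᵥ ((1 - (Matrix.of V).transpose * (scGram V)⁻¹ * Matrix.of V :
        Matrix (Fin n) (Fin n) ℝ).mulVec r)) := by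
  classical
  set W : Matrix (Fin m) (Fin n) ℝ := Matrix.of V with hW
  set G : Matrix (Fin m) (Fin m) ℝ := scGram V with hG
  have hGW : G = W * W.transpose := rfl
  set R : Matrix (Fin n) Unit ℝ := Matrix.of (fun j (_ : Unit) => r j) with hR
  have hblocks : (scGram (Fin.cons r V : Fin (m + 1) → Fin n → ℝ)).submatrix
      (ccvSchEquiv m).symm (ccvSchEquiv m).symm =
      Matrix.fromBlocks G (W * R) (R.transpose * W.transpose) (R.transpose * R) := by
    ext i j
    rcases i with i | i <;> rcases j with j | j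
    · simp [ccvSchEquiv_symm_inl, scGram, hGW, hW, Matrix.mul_apply]
    · simp [ccvSchEquiv_symm_inl, ccvSchEquiv_symm_inr, scGram, hW, hR, Matrix.mul_apply]
    · simp [ccvSchEquiv_symm_inl, ccvSchEquiv_symm_inr, scGram, hW, hR, Matrix.mul_apply]
    · simp [ccvSchEquiv_symm_inr, scGram, hR, Matrix.mul_apply]
  have hunit : IsUnit G.det := isUnit_iff_ne_zero.2 hV
  have : Invertible G := Matrix.invertibleOfIsUnitDet G hunit
  rw [← Matrix.det_submatrix_equiv_self (ccvSchEquiv m).symm
    (scGram (Fin.cons r V : Fin (m + 1) → Fin n → ℝ)), hblocks, Matrix.det_fromBlocks₁₁]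
  congr 1
  rw [Matrix.invOf_eq_nonsing_inv, Matrix.det_unique]
  have hfac : R.transpose * R - R.transpose * W.transpose * G⁻¹ * (W * R) =
      R.transpose * (1 - W.transpose * G⁻¹ * W) * R := by
    rw [Matrix.mul_sub, Matrix.mul_one, Matrix.sub_mul]
    congr 1
    simp only [Matrix.mul_assoc]
  rw [hfac, Matrix.mul_assoc R.transpose]
  generalize (1 - W.transpose * G⁻¹ * W : Matrix (Fin n) (Fin n) ℝ) = P
  simp only [Matrix.mul_apply, Matrix.transpose_apply, dotProduct,
    Matrix.mulVec, hR, Matrix.of_apply]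

theorem scSch {n m : ℕ} (hm : m ≤ n) (V : Fin m → Fin n → ℝ) (hV : (scGram V).det ≠ 0) :
    ∃ P : Matrix (Fin n) (Fin n) ℝ, P.transpose = P ∧ P * P = P ∧ P.trace = ((n - m : ℕ) : ℝ) ∧
      ∀ r : Fin n → ℝ, (scGram (Fin.cons r V : Fin (m + 1) → Fin n → ℝ)).det =
        (scGram V).det * (r ⬝ᵥ (P.mulVec r)) := by
  classical
  have hunit : IsUnit (scGram V).det := isUnit_iff_ne_zero.2 hV
  have hGsymm : (scGram V).transpose = scGram V := by
    unfold scGram
    rw [Matrix.transpose_mul, Matrix.transpose_transpose]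
  have hmul : Matrix.of V * (Matrix.of V).transpose = scGram V := rfl
  refine ⟨1 - (Matrix.of V).transpose * (scGram V)⁻¹ * Matrix.of V, ?_, ?_, ?_,
    fun r => ccvSch_det V hV r⟩
  · rw [Matrix.transpose_sub, Matrix.transpose_one, Matrix.transpose_mul, Matrix.transpose_mul,
      Matrix.transpose_transpose, Matrix.transpose_nonsing_inv, hGsymm, Matrix.mul_assoc]
  · have h1 : (Matrix.of V).transpose * (scGram V)⁻¹ * Matrix.of V *
        ((Matrix.of V).transpose * (scGram V)⁻¹ * Matrix.of V) =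
        (Matrix.of V).transpose * (scGram V)⁻¹ * Matrix.of V := by
      calc (Matrix.of V).transpose * (scGram V)⁻¹ * Matrix.of V *
            ((Matrix.of V).transpose * (scGram V)⁻¹ * Matrix.of V)
          = (Matrix.of V).transpose * ((scGram V)⁻¹ * (Matrix.of V * (Matrix.of V).transpose)) *
              (scGram V)⁻¹ * Matrix.of V := by
            simp only [Matrix.mul_assoc]
        _ = (Matrix.of V).transpose * (scGram V)⁻¹ * Matrix.of V := by
            rw [hmul, Matrix.nonsing_inv_mul _ hunit, Matrix.mul_one]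
    rw [Matrix.mul_sub, Matrix.mul_one, Matrix.sub_mul, Matrix.one_mul, h1, sub_self, sub_zero]
  · rw [Matrix.trace_sub, Matrix.trace_one, Matrix.mul_assoc, Matrix.trace_mul_comm,
      Matrix.mul_assoc, hmul, Matrix.nonsing_inv_mul _ hunit, Matrix.trace_one,
      Fintype.card_fin, Fintype.card_fin, Nat.cast_sub hm]

end Pool.Agent.Lib.MP_29b1bb_gt
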