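import Pool.Agent.Lib.MP_29b1bb_gt.SC.Q
import Pool.Agent.Lib.MP_29b1bb_gt.SC.Sch

/-!
# SC-D: lower bound of the mean absolute determinant of an exponential matrix

`∫ |det R| ≥ ∏_{k < n} scC (k + 1)`, rows independent with law `gam n`.
-/

set_option autoImplicit false

open MeasureTheory Set

namespace Pool.Agent.Lib.MP_29b1bb_gt

private theorem ccvD_coord (n : ℕ) (j : Fin n) : Integrable (fun r : Fin n → ℝ => r j) (gam n) := by
  have h : Integrable (fun x : ℝ => x) expo := by
    have h1 : IntegrableOn (fun x : ℝ => Real.exp (-x) * x) (Ioi 0) := by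
      have := Real.GammaIntegral_convergent (s := 2) (by norm_num)
      refine this.congr_fun ?_ measurableSet_Ioi
      intro x _
      norm_num
    unfold expo
    rw [integrable_withDensity_iff_integrable_smul₀' (by fun_prop) (by simp)]
    refine h1.congr ?_
    refine Filter.Eventually.of_forall fun x => ?_
    simp [ENNReal.toReal_ofReal (Real.exp_pos _).le]
  have := (measurePreserving_eval (fun _ : Fin n => expo) j)
  exact this.integrable_comp_of_integrable h

private theorem ccvD_int (n : ℕ) :
    Integrable (fun R : Fin n → Fin n → ℝ => |Matrix.det (Matrix.of R)|)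
      (Measure.pi fun _ => gam n) := by
  refine Integrable.abs ?_
  have h : (fun R : Fin n → Fin n → ℝ => Matrix.det (Matrix.of R)) =
      fun R => ∑ σ : Equiv.Perm (Fin n), (Equiv.Perm.sign σ : ℝ) * ∏ i, R i (σ i) := by
    funext R
    rw [← Matrix.det_transpose, Matrix.det_apply']
    rfl
  rw [h]
  refine integrable_finsetSum _ fun σ _ => Integrable.const_mul ?_ _
  exact Integrable.fintype_prod (f := fun i (y : Fin n → ℝ) => y (σ i)) fun i => ccvD_coord n (σ i)

private theorem ccvD_gram_meas (n m : ℕ) :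
    Measurable (fun V : Fin m → Fin n → ℝ => (scGram V).det) := by
  have : Continuous (fun V : Fin m → Fin n → ℝ => (scGram V).det) := by
    refine Continuous.matrix_det ?_
    unfold scGram
    refine Continuous.matrix_mul ?_ (Continuous.matrix_transpose ?_)
    · exact continuous_id
    · exact continuous_id
  exact this.measurable

private noncomputable def ccvD_J (n m : ℕ) : ENNReal :=
  ∫⁻ V : Fin m → Fin n → ℝ, ENNReal.ofReal (Real.sqrt (scGram V).det) ∂(Measure.pi fun _ => gam n)

private theorem ccvD_zero (n : ℕ) : ccvD_J n 0 = 1 := by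
  unfold ccvD_J
  have : ∀ V : Fin 0 → Fin n → ℝ, ENNReal.ofReal (Real.sqrt (scGram V).det) = 1 := by
    intro V
    simp
  simp_rw [this]
  simp

private theorem ccvD_step (n m : ℕ) (hm : m < n) :
    ENNReal.ofReal (scC (n - m)) * ccvD_J n m ≤ ccvD_J n (m + 1) := by
  unfold ccvD_J
  have hmp := measurePreserving_piFinSuccAbove (fun _ : Fin (m + 1) => gam n) 0
  have h1 : ∫⁻ V : Fin (m + 1) → Fin n → ℝ, ENNReal.ofReal (Real.sqrt (scGram V).det)
      ∂(Measure.pi fun _ => gam n) =
      ∫⁻ q : (Fin n → ℝ) × (Fin m → Fin n → ℝ),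
        ENNReal.ofReal (Real.sqrt (scGram (Fin.cons q.1 q.2 : Fin (m + 1) → Fin n → ℝ)).det)
        ∂((gam n).prod (Measure.pi fun _ => gam n)) := by
    rw [← hmp.map_eq, lintegral_map_equiv]
    refine lintegral_congr fun V => ?_
    congr 4
    exact (Fin.cons_self_tail V).symm
  rw [h1]
  have hmeas : Measurable (fun q : (Fin n → ℝ) × (Fin m → Fin n → ℝ) =>
        ENNReal.ofReal (Real.sqrt (scGram (Fin.cons q.1 q.2 : Fin (m + 1) → Fin n → ℝ)).det)) := by
    refine ENNReal.measurable_ofReal.comp (Real.continuous_sqrt.measurable.comp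
      ((ccvD_gram_meas n (m + 1)).comp ?_))
    refine measurable_pi_iff.2 fun i => ?_
    refine Fin.cases ?_ (fun j => ?_) i
    · simpa using measurable_fst
    · simp only [Fin.cons_succ]
      exact (measurable_pi_apply j).comp measurable_snd
  rw [lintegral_prod_symm' _ hmeas, ← lintegral_const_mul' _ _ ENNReal.ofReal_ne_top]
  refine lintegral_mono fun V => ?_
  simp only
  by_cases hV : (scGram V).det = 0
  · simp [hV]
  · obtain ⟨P, hs, hp, ht, hdet⟩ := scSch hm.le V hV
    obtain ⟨hi, hq⟩ := scQ n P hs hp (n - m) ht (by omega)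
    have h2 : ∀ r : Fin n → ℝ,
        ENNReal.ofReal (Real.sqrt (scGram (Fin.cons r V : Fin (m + 1) → Fin n → ℝ)).det) =
        ENNReal.ofReal (Real.sqrt (scGram V).det) *
          ENNReal.ofReal (Real.sqrt (r ⬝ᵥ (P.mulVec r))) := by
      intro r
      rw [hdet r, Real.sqrt_mul (scGram_nonneg V), ENNReal.ofReal_mul (Real.sqrt_nonneg _)]
    simp_rw [h2]
    rw [lintegral_const_mul' _ _ ENNReal.ofReal_ne_top, mul_comm]
    gcongr
    rw [← ofReal_integral_eq_lintegral_ofReal hi
      (Filter.Eventually.of_forall fun r => Real.sqrt_nonneg _)]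
    exact ENNReal.ofReal_le_ofReal hq

private theorem ccvD_low (n m : ℕ) (hm : m ≤ n) :
    ENNReal.ofReal (∏ k ∈ Finset.range m, scC (n - k)) ≤ ccvD_J n m := by
  induction m with
  | zero => simp [ccvD_zero]
  | succ m ih =>
    refine le_trans ?_ (ccvD_step n m (by omega))
    rw [Finset.prod_range_succ, mul_comm, ENNReal.ofReal_mul]
    · gcongr
      exact ih (by omega)
    · unfold scC
      positivity

theorem scD (n : ℕ) :
    Integrable (fun R : Fin n → Fin n → ℝ => |Matrix.det (Matrix.of R)|)
      (Measure.pi fun _ => gam n) ∧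
    ∏ k ∈ Finset.range n, scC (k + 1) ≤
      ∫ R : Fin n → Fin n → ℝ, |Matrix.det (Matrix.of R)| ∂(Measure.pi fun _ => gam n) := by
  refine ⟨ccvD_int n, ?_⟩
  have h1 := ccvD_low n n le_rfl
  have h2 : ccvD_J n n = ENNReal.ofReal
      (∫ R : Fin n → Fin n → ℝ, |Matrix.det (Matrix.of R)| ∂(Measure.pi fun _ => gam n)) := by
    rw [ofReal_integral_eq_lintegral_ofReal (ccvD_int n)
      (Filter.Eventually.of_forall fun r => abs_nonneg _)]
    unfold ccvD_J
    refine lintegral_congr fun V => ?_
    congr 1
    unfold scGram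
    rw [Matrix.det_mul, Matrix.det_transpose, Real.sqrt_mul_self_eq_abs]
  have h3 : ∏ k ∈ Finset.range n, scC (n - k) = ∏ k ∈ Finset.range n, scC (k + 1) := by
    rw [← Finset.prod_range_reflect]
    refine Finset.prod_congr rfl fun k hk => ?_
    have := Finset.mem_range.1 hk
    congr 1
    omega
  rw [h2, h3] at h1
  exact (ENNReal.ofReal_le_ofReal_iff (integral_nonneg fun R => abs_nonneg _)).1 h1

end Pool.Agent.Lib.MP_29b1bb_gt
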