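import Pool.Agent.Lib.MP_29b1bb_gt.Main

/-!
# SC-Defs: definitions of the second moment criterion
-/

set_option autoImplicit false

open MeasureTheory Set

namespace Pool.Agent.Lib.MP_29b1bb_gt

/-- The expected volume of the convex hull of `d + 1` independent uniform points of `K`. -/
noncomputable def scMean (d : ℕ) (K : Set (EuclideanSpace ℝ (Fin d))) : ℝ :=
  (∫ x in Set.pi Set.univ (fun _ : Fin (d + 1) => K),
    (volume (convexHull ℝ (Set.range x))).toReal) / (volume K).toReal ^ (d + 1)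

/-- The covariance matrix of a uniform point of `K`. -/
noncomputable def scCov (d : ℕ) (K : Set (EuclideanSpace ℝ (Fin d))) :
    Matrix (Fin d) (Fin d) ℝ :=
  Matrix.of fun i j => (⨍ x in K, x i * x j) - (⨍ x in K, x i) * (⨍ x in K, x j)

/-- The matrix with the rows `(1, x i)`. -/
def scRow {d : ℕ} (x : Fin (d + 1) → EuclideanSpace ℝ (Fin d)) :
    Matrix (Fin (d + 1)) (Fin (d + 1)) ℝ :=
  Matrix.of fun i => (Fin.cons (1 : ℝ) (fun l => x i l) : Fin (d + 1) → ℝ)

/-- The Gram matrix of `m` vectors of `ℝ^n`. -/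
def scGram {n m : ℕ} (V : Fin m → Fin n → ℝ) : Matrix (Fin m) (Fin m) ℝ :=
  Matrix.of V * (Matrix.of V).transpose

/-- The lower bound of the mean distance: `k / √(k + 12)`. -/
noncomputable def scC (k : ℕ) : ℝ := (k : ℝ) / Real.sqrt ((k : ℝ) + 12)

end Pool.Agent.Lib.MP_29b1bb_gt
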