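import Pool.Agent.Lib.MP_29b1bb_gt.SC.Defs

/-!
# SC-H: from exponential rows to rows uniform on the simplex

For `h : (Fin N → ℝ) → ℝ` continuous, `h ≥ 0`, `h (c x) = c h x` for `c > 0`:
`∫ h dgam N = N ∫ h dsig N` (`scH1`): with `gam_eq_withDensity`, for `t > 0`
`A(t) := ∫_{x>0} h(x) e^{-t ∑x} dx = t^(-(N+1)) A(1)` (scaling `x ↦ x/t`), and
`∫_1^∞ A(t) dt = ∫_{x>0} h(x) e^{-∑x}/∑x dx = ∫ h(nrm N x) dgam = ∫ h dsig` (Tonelli), while
`∫_1^∞ t^(-(N+1)) dt = 1/N`. Everything is nonnegative: work with `lintegral`.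
Then `∫ |det R| d(gam)^N = N^N ∫ |det Y| d(sig)^N` for rows indexed by `Fin N`: apply `scH1` row by
row (the determinant is multilinear: `|det|` is homogeneous of degree one in each row). In a
`lintegral` form: prove by induction on `m`, for `F : (Fin m → Fin N → ℝ) → ENNReal` measurable and
homogeneous of degree one in each row, `∫⁻ F d(gam)^m = N^m ∫⁻ F d(sig)^m`
(Fubini with `measurePreserving_piFinSuccAbove`), then take `m = N`.
`Gdet d univ` is the integral over `sig` (`Defs.lean`), the set integral over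
`Set.pi univ (fun _ => univ) = univ`.
-/

set_option autoImplicit false

open MeasureTheory Set

namespace Pool.Agent.Lib.MP_29b1bb_gt

private theorem ccvH_pos_meas (N : ℕ) : MeasurableSet {x : Fin N → ℝ | ∀ i, 0 < x i} := by
  have h : {x : Fin N → ℝ | ∀ i, 0 < x i} = ⋂ i, {x | 0 < x i} := by
    ext x; simp
  rw [h]
  exact MeasurableSet.iInter fun i => measurableSet_lt measurable_const (measurable_pi_apply i)

/-- integrals against `gam` -/
private theorem ccvH_gam (N : ℕ) (h : (Fin N → ℝ) → ENNReal) (hm : Measurable h) :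
    ∫⁻ x, h x ∂(gam N) =
      ∫⁻ x in {x : Fin N → ℝ | ∀ i, 0 < x i}, ENNReal.ofReal (Real.exp (-∑ i, x i)) * h x := by
  rw [gam_eq_withDensity, lintegral_withDensity_eq_lintegral_mul _ (by fun_prop) hm]
  rfl

/-- scaling of the Lebesgue measure -/
private theorem ccvH_smul (N : ℕ) (F : (Fin N → ℝ) → ENNReal) (hF : Measurable F) (t : ℝ)
    (ht : 0 < t) :
    ∫⁻ x : Fin N → ℝ, F (t • x) = ENNReal.ofReal ((t ^ N)⁻¹) * ∫⁻ x : Fin N → ℝ, F x := by
  have h1 := Measure.map_addHaar_smul (volume : Measure (Fin N → ℝ)) ht.ne'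
  have h2 : ∫⁻ x : Fin N → ℝ, F x ∂(Measure.map (fun x => t • x) volume) =
      ∫⁻ x : Fin N → ℝ, F (t • x) := lintegral_map hF (by fun_prop)
  rw [← h2, h1, lintegral_smul_measure]
  simp only [Module.finrank_fin_fun, smul_eq_mul]
  rw [abs_of_pos (by positivity)]

/-- the scaled exponential integral -/
private theorem ccvH_A (N : ℕ) (h : (Fin N → ℝ) → ENNReal) (hm : Measurable h)
    (hh : ∀ (c : ℝ) (x : Fin N → ℝ), 0 < c → h (c • x) = ENNReal.ofReal c * h x) (t : ℝ)
    (ht : 0 < t) :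
    ∫⁻ x in {x : Fin N → ℝ | ∀ i, 0 < x i}, ENNReal.ofReal (Real.exp (-(t * ∑ i, x i))) * h x =
      ENNReal.ofReal ((t ^ (N + 1))⁻¹) * ∫⁻ x, h x ∂(gam N) := by
  have hS := ccvH_pos_meas N
  set S : Set (Fin N → ℝ) := {x : Fin N → ℝ | ∀ i, 0 < x i} with hSdef
  have hF : Measurable (fun x : Fin N → ℝ => S.indicator
      (fun x => ENNReal.ofReal (Real.exp (-∑ i, x i)) * h x) x) := by
    refine Measurable.indicator ?_ hS
    exact Measurable.mul (by fun_prop) hm
  have h1 := ccvH_smul N _ hF t ht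
  rw [lintegral_indicator hS, ← ccvH_gam N h hm] at h1
  have h2 : ∀ x : Fin N → ℝ, S.indicator
      (fun x => ENNReal.ofReal (Real.exp (-∑ i, x i)) * h x) (t • x) =
      ENNReal.ofReal t * S.indicator (fun x : Fin N → ℝ =>
        ENNReal.ofReal (Real.exp (-(t * ∑ i, x i))) * h x) x := by
    intro x
    have hmem : t • x ∈ S ↔ x ∈ S := by
      simp only [hSdef, Set.mem_ofPred_eq, Pi.smul_apply, smul_eq_mul]
      exact forall_congr' fun i => by
        constructor
        · intro h0; exact (mul_pos_iff_of_pos_left ht).1 h0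
        · intro h0; exact mul_pos ht h0
    by_cases hx : x ∈ S
    · rw [Set.indicator_of_mem (hmem.2 hx), Set.indicator_of_mem hx, hh t x ht]
      have : ∑ i, (t • x) i = t * ∑ i, x i := by
        simp [Finset.mul_sum]
      rw [this]
      ring
    · rw [Set.indicator_of_notMem (fun h0 => hx (hmem.1 h0)), Set.indicator_of_notMem hx, mul_zero]
  simp only [h2] at h1
  have hG : Measurable (fun x : Fin N → ℝ => S.indicator (fun x : Fin N → ℝ =>
        ENNReal.ofReal (Real.exp (-(t * ∑ i, x i))) * h x) x) := by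
    refine Measurable.indicator ?_ hS
    exact Measurable.mul (by fun_prop) hm
  rw [lintegral_const_mul _ hG, lintegral_indicator hS] at h1
  have ht0 : ENNReal.ofReal t ≠ 0 := by simpa using ht
  have h3 : ENNReal.ofReal (t⁻¹) * ENNReal.ofReal t = 1 := by
    rw [← ENNReal.ofReal_mul (by positivity), inv_mul_cancel₀ ht.ne', ENNReal.ofReal_one]
  calc ∫⁻ x in S, ENNReal.ofReal (Real.exp (-(t * ∑ i, x i))) * h x
      = (ENNReal.ofReal (t⁻¹) * ENNReal.ofReal t) *
        ∫⁻ x in S, ENNReal.ofReal (Real.exp (-(t * ∑ i, x i))) * h x := by rw [h3, one_mul]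
    _ = ENNReal.ofReal (t⁻¹) * (ENNReal.ofReal t *
        ∫⁻ x in S, ENNReal.ofReal (Real.exp (-(t * ∑ i, x i))) * h x) := by rw [mul_assoc]
    _ = ENNReal.ofReal (t⁻¹) * (ENNReal.ofReal ((t ^ N)⁻¹) * ∫⁻ x, h x ∂(gam N)) := by rw [h1]
    _ = ENNReal.ofReal ((t ^ (N + 1))⁻¹) * ∫⁻ x, h x ∂(gam N) := by
      rw [← mul_assoc, ← ENNReal.ofReal_mul (by positivity)]
      congr 2
      rw [pow_succ, mul_inv, mul_comm]

/-- `∫_1^∞ t^(-(N+1)) dt = 1 / N` -/
private theorem ccvH_pow (N : ℕ) (hN : 0 < N) :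
    ∫⁻ t in Ioi (1 : ℝ), ENNReal.ofReal ((t ^ (N + 1))⁻¹) = ENNReal.ofReal ((N : ℝ)⁻¹) := by
  have hlt : -((N : ℝ) + 1) < -1 := by
    have : (0 : ℝ) < N := by exact_mod_cast hN
    linarith
  have h1 := integral_Ioi_rpow_of_lt hlt (c := 1) one_pos
  have hint := integrableOn_Ioi_rpow_of_lt hlt (c := 1) one_pos
  have h2 : ENNReal.ofReal (∫ t in Ioi (1 : ℝ), t ^ (-((N : ℝ) + 1))) =
      ∫⁻ t in Ioi (1 : ℝ), ENNReal.ofReal (t ^ (-((N : ℝ) + 1))) := by
    refine ofReal_integral_eq_lintegral_ofReal hint ?_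
    filter_upwards [ae_restrict_mem measurableSet_Ioi] with t ht
    have : (0 : ℝ) < t := lt_trans one_pos ht
    positivity
  have h3 : ∫⁻ t in Ioi (1 : ℝ), ENNReal.ofReal ((t ^ (N + 1))⁻¹) =
      ∫⁻ t in Ioi (1 : ℝ), ENNReal.ofReal (t ^ (-((N : ℝ) + 1))) := by
    refine setLIntegral_congr_fun measurableSet_Ioi fun t ht => ?_
    have h0 : (0 : ℝ) < t := lt_trans one_pos ht
    have : t ^ (-((N : ℝ) + 1)) = (t ^ (N + 1))⁻¹ := by
      rw [Real.rpow_neg h0.le]
      congr 1
      exact_mod_cast Real.rpow_natCast t (N + 1)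
    rw [this]
  rw [h3, ← h2, h1]
  congr 1
  rw [Real.one_rpow]
  have : (N : ℝ) ≠ 0 := by positivity
  have h5 : -((N : ℝ) + 1) + 1 = -(N : ℝ) := by ring
  rw [h5, neg_div_neg_eq, one_div]

/-- `∫_1^∞ e^(-t s) dt = e^(-s) / s` -/
private theorem ccvH_exp (s : ℝ) (hs : 0 < s) :
    ∫⁻ t in Ioi (1 : ℝ), ENNReal.ofReal (Real.exp (-(t * s))) =
      ENNReal.ofReal (Real.exp (-s) / s) := by
  have h1 := integral_exp_mul_Ioi (a := -s) (by linarith) 1
  have hint := exp_neg_integrableOn_Ioi 1 hs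
  have h2 : ENNReal.ofReal (∫ t in Ioi (1 : ℝ), Real.exp (-s * t)) =
      ∫⁻ t in Ioi (1 : ℝ), ENNReal.ofReal (Real.exp (-s * t)) := by
    refine ofReal_integral_eq_lintegral_ofReal hint ?_
    exact Filter.Eventually.of_forall fun t => (Real.exp_pos _).le
  have h3 : ∀ t : ℝ, -(t * s) = -s * t := fun t => by ring
  simp only [h3]
  rw [← h2, h1]
  congr 1
  rw [mul_one]
  field_simp

theorem scH1 (N : ℕ) (hN : 0 < N) (h : (Fin N → ℝ) → ENNReal) (hm : Measurable h)
    (hh : ∀ (c : ℝ) (x : Fin N → ℝ), 0 < c → h (c • x) = ENNReal.ofReal c * h x) :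
    ∫⁻ x, h x ∂(gam N) = (N : ENNReal) * ∫⁻ x, h x ∂(sig N) := by
  have hS := ccvH_pos_meas N
  set S : Set (Fin N → ℝ) := {x : Fin N → ℝ | ∀ i, 0 < x i} with hSdef
  have hsig : ∫⁻ x, h x ∂(sig N) = ∫⁻ x, h (nrm N x) ∂(gam N) := by
    unfold sig
    exact lintegral_map hm (measurable_nrm N)
  have h1 : ∫⁻ x, h (nrm N x) ∂(gam N) =
      ∫⁻ x in S, ∫⁻ t in Ioi (1 : ℝ), ENNReal.ofReal (Real.exp (-(t * ∑ i, x i))) * h x := by
    rw [ccvH_gam N (fun x => h (nrm N x)) (hm.comp (measurable_nrm N))]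
    refine setLIntegral_congr_fun hS fun x hx => ?_
    have hne : Nonempty (Fin N) := ⟨⟨0, hN⟩⟩
    have hx' : ∀ i, 0 < x i := hx
    have hs : 0 < ∑ i, x i := Finset.sum_pos (fun i _ => hx' i) Finset.univ_nonempty
    have h2 : nrm N x = (∑ i, x i)⁻¹ • x := by
      funext i
      simp only [nrm, Pi.smul_apply, smul_eq_mul]
      rw [div_eq_inv_mul]
    rw [h2, hh _ _ (inv_pos.2 hs), lintegral_mul_const _ (by fun_prop), ccvH_exp _ hs,
      ← mul_assoc, ← ENNReal.ofReal_mul (Real.exp_pos _).le, div_eq_mul_inv]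
  have hswap : ∫⁻ x in S, ∫⁻ t in Ioi (1 : ℝ),
        ENNReal.ofReal (Real.exp (-(t * ∑ i, x i))) * h x =
      ∫⁻ t in Ioi (1 : ℝ), ∫⁻ x in S, ENNReal.ofReal (Real.exp (-(t * ∑ i, x i))) * h x := by
    refine lintegral_lintegral_swap ?_
    refine Measurable.aemeasurable ?_
    refine Measurable.mul ?_ ?_
    · refine ENNReal.measurable_ofReal.comp (Real.measurable_exp.comp ?_)
      refine Measurable.neg ?_
      refine Measurable.mul measurable_snd ?_
      exact Finset.measurable_sum _ fun i _ => (measurable_pi_apply i).comp measurable_fst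
    · exact hm.comp measurable_fst
  have h2 : ∫⁻ t in Ioi (1 : ℝ), ∫⁻ x in S, ENNReal.ofReal (Real.exp (-(t * ∑ i, x i))) * h x =
      ∫⁻ t in Ioi (1 : ℝ), ENNReal.ofReal ((t ^ (N + 1))⁻¹) * ∫⁻ x, h x ∂(gam N) :=
    setLIntegral_congr_fun measurableSet_Ioi fun t ht =>
      ccvH_A N h hm hh t (lt_trans one_pos ht)
  have h3 : ∫⁻ t in Ioi (1 : ℝ), ENNReal.ofReal ((t ^ (N + 1))⁻¹) * ∫⁻ x, h x ∂(gam N) =
      ENNReal.ofReal ((N : ℝ)⁻¹) * ∫⁻ x, h x ∂(gam N) := by
    rw [lintegral_mul_const _ (by fun_prop), ccvH_pow N hN]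
  rw [hsig, h1, hswap, h2, h3, ← mul_assoc]
  have h4 : (N : ENNReal) * ENNReal.ofReal ((N : ℝ)⁻¹) = 1 := by
    have hN' : (0 : ℝ) < N := by exact_mod_cast hN
    rw [← ENNReal.ofReal_natCast, ← ENNReal.ofReal_mul hN'.le, mul_inv_cancel₀ hN'.ne',
      ENNReal.ofReal_one]
  rw [h4, one_mul]

/-- Fubini for the first row -/
private theorem ccvH_cons (N m : ℕ) (μ : Measure (Fin N → ℝ)) [IsProbabilityMeasure μ]
    (F : (Fin (m + 1) → Fin N → ℝ) → ENNReal) (hF : Measurable F) :
    ∫⁻ R, F R ∂(Measure.pi fun _ : Fin (m + 1) => μ) =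
      ∫⁻ x, ∫⁻ y, F (Fin.cons x y) ∂(Measure.pi fun _ : Fin m => μ) ∂μ := by
  have hmp := measurePreserving_piFinSuccAbove (fun _ : Fin (m + 1) => μ) 0
  have h1 := hmp.symm.lintegral_comp hF
  rw [← h1, lintegral_prod _ (by
    exact (hF.comp (MeasurableEquiv.measurable _)).aemeasurable)]
  refine lintegral_congr fun x => lintegral_congr fun y => ?_
  congr 1
  funext i
  refine Fin.cases ?_ (fun j => ?_) i
  · rfl
  · rfl

private theorem ccvH_meas_cons (N m : ℕ) :
    Measurable (fun q : (Fin N → ℝ) × (Fin m → Fin N → ℝ) =>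
      (Fin.cons q.1 q.2 : Fin (m + 1) → Fin N → ℝ)) := by
  refine measurable_pi_lambda _ fun i => ?_
  refine Fin.cases ?_ (fun j => ?_) i
  · simpa using measurable_fst
  · exact (measurable_pi_apply j).comp measurable_snd

private theorem ccvH_ind (N : ℕ) (hN : 0 < N) (m : ℕ) :
    ∀ F : (Fin m → Fin N → ℝ) → ENNReal, Measurable F →
      (∀ (i : Fin m) (c : ℝ) (x : Fin m → Fin N → ℝ), 0 < c →
        F (Function.update x i (c • x i)) = ENNReal.ofReal c * F x) →
      ∫⁻ R, F R ∂(Measure.pi fun _ : Fin m => gam N) =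
        (N : ENNReal) ^ m * ∫⁻ R, F R ∂(Measure.pi fun _ : Fin m => sig N) := by
  have hg : IsProbabilityMeasure (gam N) := inferInstance
  have hsg : IsProbabilityMeasure (sig N) := inferInstance
  induction m with
  | zero =>
    intro F hF hh
    rw [pow_zero, one_mul]
    rw [Measure.pi_of_empty (fun _ : Fin 0 => gam N), Measure.pi_of_empty (fun _ : Fin 0 => sig N)]
  | succ m ih =>
    intro F hF hh
    rw [ccvH_cons N m (gam N) F hF, ccvH_cons N m (sig N) F hF]
    have h1 : ∀ x : Fin N → ℝ, ∫⁻ y, F (Fin.cons x y) ∂(Measure.pi fun _ : Fin m => gam N) =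
        (N : ENNReal) ^ m * ∫⁻ y, F (Fin.cons x y) ∂(Measure.pi fun _ : Fin m => sig N) := by
      intro x
      refine ih (fun y => F (Fin.cons x y)) ?_ ?_
      · exact hF.comp ((ccvH_meas_cons N m).comp measurable_prodMk_left)
      · intro i c y hc
        have h2 := hh i.succ c (Fin.cons x y) hc
        rw [Fin.cons_succ, ← Fin.cons_update] at h2
        exact h2
    simp only [h1]
    have hG : Measurable (fun x : Fin N → ℝ =>
        ∫⁻ y, F (Fin.cons x y) ∂(Measure.pi fun _ : Fin m => sig N)) :=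
      Measurable.lintegral_prod_right' (f := fun q : (Fin N → ℝ) × (Fin m → Fin N → ℝ) =>
        F (Fin.cons q.1 q.2)) (hF.comp (ccvH_meas_cons N m))
    rw [lintegral_const_mul _ hG, scH1 N hN _ hG, ← mul_assoc, pow_succ]
    intro c x hc
    have hF' : Measurable (fun y : Fin m → Fin N → ℝ => F (Fin.cons x y)) :=
      hF.comp ((ccvH_meas_cons N m).comp measurable_prodMk_left)
    rw [← lintegral_const_mul _ hF']
    refine lintegral_congr fun y => ?_
    have h2 := hh 0 c (Fin.cons x y) hc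
    rw [Fin.cons_zero, Fin.update_cons_zero] at h2
    exact h2

theorem scH (d : ℕ) :
    ∫ R : Fin (d + 1) → Fin (d + 1) → ℝ, |Matrix.det (Matrix.of R)|
        ∂(Measure.pi fun _ => gam (d + 1)) = ((d : ℝ) + 1) ^ (d + 1) * Gdet d univ := by
  have hg : IsProbabilityMeasure (gam (d + 1)) := inferInstance
  have hsg : IsProbabilityMeasure (sig (d + 1)) := inferInstance
  have hcont : Continuous (fun R : Fin (d + 1) → Fin (d + 1) → ℝ => |Matrix.det (Matrix.of R)|) := by
    have h1 : Continuous (fun R : Fin (d + 1) → Fin (d + 1) → ℝ => Matrix.det (Matrix.of R)) := by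
      refine Continuous.matrix_det ?_
      exact continuous_matrix fun i j => (continuous_apply j).comp (continuous_apply i)
    exact h1.abs
  have h1 := ccvH_ind (d + 1) (Nat.succ_pos d) (d + 1)
    (fun R => ENNReal.ofReal |Matrix.det (Matrix.of R)|)
    (ENNReal.measurable_ofReal.comp hcont.measurable) ?_
  · unfold Gdet
    have hu : Set.pi Set.univ (fun _ : Fin (d + 1) => (univ : Set (Fin (d + 1) → ℝ))) = univ := by
      simp
    rw [hu, Measure.restrict_univ]
    rw [integral_eq_lintegral_of_nonneg_ae (Filter.Eventually.of_forall fun R => abs_nonneg _)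
      hcont.aestronglyMeasurable,
      integral_eq_lintegral_of_nonneg_ae (Filter.Eventually.of_forall fun R => abs_nonneg _)
      hcont.aestronglyMeasurable, h1, ENNReal.toReal_mul, ENNReal.toReal_pow, ENNReal.toReal_natCast]
    push_cast
    rfl
  · intro i c x hc
    have h2 : Matrix.of (Function.update x i (c • x i)) =
        Matrix.updateRow (Matrix.of x) i (c • x i) := rfl
    rw [h2, Matrix.det_updateRow_smul]
    have h3 : Matrix.updateRow (Matrix.of x) i (x i) = Matrix.of x := by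
      have := Matrix.updateRow_eq_self (Matrix.of x) i
      exact this
    rw [h3, abs_mul, abs_of_pos hc, ENNReal.ofReal_mul hc.le]

end Pool.Agent.Lib.MP_29b1bb_gt
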