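import Pool.Agent.Lib.MP_29b1bb_gt.SC.V
import Pool.Agent.Lib.MP_29b1bb_gt.SC.Cv
import Pool.Agent.Lib.MP_29b1bb_gt.SigV
import Pool.Agent.Lib.MP_29b1bb_gt.Leb2

/-!
# The covariance matrix of a simplex

`det Cov(S) = (d! |S|)² / ((d+1)^(d+1) (d+2)^d)` for every `d`-simplex `S`, `d ≥ 1`.
-/

set_option autoImplicit false

open MeasureTheory Set

namespace Pool.Agent.Lib.MP_29b1bb_gt

private theorem isoC_moment (m : ℕ) (hm : 0 < m) :
    ∫ g, (1 - g) ^ 2 ∂bet m = 2 / (((m : ℝ) + 1) * ((m : ℝ) + 2)) := by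
  rw [integral_bet]
  have e1 : ∀ g : ℝ, ((m : ℝ) * g ^ (m - 1)) * (1 - g) ^ 2 =
      (m : ℝ) * (g ^ (m - 1) - 2 * g ^ (m - 1 + 1) + g ^ (m - 1 + 2)) := by
    intro g
    rw [pow_add, pow_add]
    ring
  simp_rw [e1]
  have i1 : ∀ k : ℕ, IntervalIntegrable (fun g : ℝ => g ^ k) volume 0 1 :=
    fun k => (continuous_pow k).intervalIntegrable 0 1
  rw [intervalIntegral.integral_const_mul, intervalIntegral.integral_add
    ((i1 _).sub ((i1 _).const_mul 2)) (i1 _), intervalIntegral.integral_sub (i1 _)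
    ((i1 _).const_mul 2), intervalIntegral.integral_const_mul, integral_pow, integral_pow,
    integral_pow]
  have h1 : ((m - 1 : ℕ) : ℝ) + 1 = m := by
    push_cast [Nat.cast_sub (show 1 ≤ m from hm)]
    ring
  have h2 : ((m - 1 + 1 : ℕ) : ℝ) + 1 = (m : ℝ) + 1 := by
    push_cast [Nat.cast_sub (show 1 ≤ m from hm)]
    ring
  have h3 : ((m - 1 + 2 : ℕ) : ℝ) + 1 = (m : ℝ) + 2 := by
    push_cast [Nat.cast_sub (show 1 ≤ m from hm)]
    ring
  rw [h1, h2, h3]
  have hm0 : (0 : ℝ) < m := by exact_mod_cast hm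
  simp only [one_pow, ne_eq, Nat.add_eq_zero_iff, one_ne_zero, and_false, not_false_eq_true,
    zero_pow, sub_zero, OfNat.ofNat_ne_zero]
  field_simp
  ring

private theorem isoC_mem_le {n : ℕ} {x : Fin n → ℝ} (hx : x ∈ stdSimplex ℝ (Fin n)) (i : Fin n) :
    |x i| ≤ 1 := by
  rw [abs_of_nonneg (hx.1 i), ← hx.2]
  exact Finset.single_le_sum (f := x) (fun j _ => hx.1 j) (Finset.mem_univ i)

private theorem isoC_int1 (d : ℕ) (i : Fin (d + 1)) :
    Integrable (fun x : Fin (d + 1) → ℝ => x i) (sig (d + 1)) :=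
  integrable_sig (Nat.succ_pos d) (measurable_pi_apply i) (M := 1) fun _ hx => isoC_mem_le hx i

private theorem isoC_int2 (d : ℕ) (i j : Fin (d + 1)) :
    Integrable (fun x : Fin (d + 1) → ℝ => x i * x j) (sig (d + 1)) := by
  refine integrable_sig (Nat.succ_pos d) ((measurable_pi_apply i).mul (measurable_pi_apply j))
    (M := 1) fun x hx => ?_
  rw [abs_mul]
  exact mul_le_one₀ (isoC_mem_le hx i) (abs_nonneg _) (isoC_mem_le hx j)

/-- the mean of a coordinate -/
private theorem isoC_first (d : ℕ) (i : Fin (d + 1)) :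
    ∫ x, x i ∂sig (d + 1) = 1 / ((d : ℝ) + 1) := by
  have hperm : ∀ k : Fin (d + 1), ∫ x, x k ∂sig (d + 1) = ∫ x, x i ∂sig (d + 1) := by
    intro k
    have h := integral_sig_perm (d + 1) (Equiv.swap k i) (fun x => x i) (measurable_pi_apply i)
    simp only [Function.comp_apply, Equiv.swap_apply_right] at h
    exact h
  have hsg : IsProbabilityMeasure (sig (d + 1)) := inferInstance
  have hsum : ∑ k, ∫ x, x k ∂sig (d + 1) = 1 := by
    rw [← integral_finsetSum _ (fun k _ => isoC_int1 d k)]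
    have h2 : ∫ x, ∑ k, x k ∂sig (d + 1) = ∫ _x, (1 : ℝ) ∂sig (d + 1) := by
      refine integral_congr_ae ?_
      filter_upwards [sig_ae_mem (d + 1) (Nat.succ_pos d)] with x hx
      exact hx.2
    rw [h2]
    simp
  rw [Finset.sum_congr rfl (fun k _ => hperm k), Finset.sum_const, Finset.card_univ,
    Fintype.card_fin, nsmul_eq_mul] at hsum
  push_cast at hsum
  have h0 : (0 : ℝ) < (d : ℝ) + 1 := by positivity
  rw [eq_div_iff h0.ne']
  linarith

private theorem isoC_diag (d : ℕ) (hd : 0 < d) (i : Fin (d + 1)) :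
    ∫ x, x i * x i ∂sig (d + 1) = 2 / (((d : ℝ) + 1) * ((d : ℝ) + 2)) := by
  have hsg : IsProbabilityMeasure (sig d) := by
    unfold sig
    exact Measure.isProbabilityMeasure_map (measurable_nrm d).aemeasurable
  have h := integral_vertex d hd i (fun x => x i * x i)
    ((measurable_pi_apply i).mul (measurable_pi_apply i)) 1 (fun x hx => by
      rw [abs_mul]
      exact mul_le_one₀ (isoC_mem_le hx i) (abs_nonneg _) (isoC_mem_le hx i))
  rw [h, ← isoC_moment d hd]
  refine integral_congr_ae (Filter.Eventually.of_forall fun g => ?_)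
  have h2 : ∀ y : Fin d → ℝ,
      ((1 - g) • (Pi.single i (1 : ℝ) : Fin (d + 1) → ℝ) + g • emb i y) i = 1 - g := by
    intro y
    simp [emb_apply_same]
  simp only [h2]
  rw [integral_const]
  simp only [probReal_univ, one_smul]
  ring

private theorem isoC_off (d : ℕ) (hd : 0 < d) (i j : Fin (d + 1)) (hij : i ≠ j) :
    ∫ x, x i * x j ∂sig (d + 1) = 1 / (((d : ℝ) + 1) * ((d : ℝ) + 2)) := by
  have hperm : ∀ k : Fin (d + 1), k ≠ i →
      ∫ x, x i * x k ∂sig (d + 1) = ∫ x, x i * x j ∂sig (d + 1) := by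
    intro k hk
    have h := integral_sig_perm (d + 1) (Equiv.swap k j) (fun x => x i * x k)
      ((measurable_pi_apply i).mul (measurable_pi_apply k))
    simp only [Function.comp_apply, Equiv.swap_apply_left] at h
    rw [Equiv.swap_apply_of_ne_of_ne hk.symm hij] at h
    exact h.symm
  have hsum : ∑ k, ∫ x, x i * x k ∂sig (d + 1) = 1 / ((d : ℝ) + 1) := by
    rw [← integral_finsetSum _ (fun k _ => isoC_int2 d i k), ← isoC_first d i]
    refine integral_congr_ae ?_
    filter_upwards [sig_ae_mem (d + 1) (Nat.succ_pos d)] with x hx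
    rw [← Finset.mul_sum, hx.2, mul_one]
  rw [← Finset.add_sum_erase _ _ (Finset.mem_univ i),
    Finset.sum_congr rfl (fun k hk => hperm k (Finset.ne_of_mem_erase hk)), Finset.sum_const,
    Finset.card_erase_of_mem (Finset.mem_univ i), Finset.card_univ, Fintype.card_fin,
    isoC_diag d hd i, nsmul_eq_mul, Nat.add_sub_cancel] at hsum
  have hd0 : (0 : ℝ) < d := by exact_mod_cast hd
  have h1 : (d : ℝ) * ∫ x, x i * x j ∂sig (d + 1) =
      (d : ℝ) * (1 / (((d : ℝ) + 1) * ((d : ℝ) + 2))) := by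
    have h2 : (d : ℝ) * (1 / (((d : ℝ) + 1) * ((d : ℝ) + 2))) =
        1 / ((d : ℝ) + 1) - 2 / (((d : ℝ) + 1) * ((d : ℝ) + 2)) := by
      field_simp
      ring
    rw [h2]
    linarith
  exact mul_left_cancel₀ hd0.ne' h1

private theorem isoC_second (d : ℕ) (hd : 0 < d) (i j : Fin (d + 1)) :
    ∫ x, x i * x j ∂sig (d + 1) =
      (1 / (((d : ℝ) + 1) * ((d : ℝ) + 2))) * ((if i = j then 1 else 0) + 1) := by
  split_ifs with h
  · subst h
    rw [isoC_diag d hd]
    ring
  · rw [isoC_off d hd i j h]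
    ring

/-- averages over a simplex -/
private theorem isoC_avg {d : ℕ} (p : Fin (d + 1) → EuclideanSpace ℝ (Fin d))
    (hp : AffineIndependent ℝ p) (f : EuclideanSpace ℝ (Fin d) → ℝ) (hf : Measurable f) :
    ⨍ x in convexHull ℝ (range p), f x = ∫ y, f (∑ i, y i • p i) ∂sig (d + 1) := by
  have hV := volume_simplex_ne p hp
  have hL : Measurable (fun y : Fin (d + 1) → ℝ => ∑ i, y i • p i) :=
    (by fun_prop : Continuous (fun y : Fin (d + 1) → ℝ => ∑ i, y i • p i)).measurable
  rw [setAverage_eq', restrict_simplex p hp, smul_smul, ENNReal.inv_mul_cancel hV.1 hV.2,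
    one_smul, integral_map hL.aemeasurable hf.aestronglyMeasurable]

private theorem isoC_coord {d : ℕ} (p : Fin (d + 1) → EuclideanSpace ℝ (Fin d))
    (y : Fin (d + 1) → ℝ) (a : Fin d) : (∑ i, y i • p i) a = ∑ i, y i * p i a := by
  simp [WithLp.ofLp_sum, Finset.sum_apply]

private theorem isoC_mean {d : ℕ} (p : Fin (d + 1) → EuclideanSpace ℝ (Fin d))
    (hp : AffineIndependent ℝ p) (a : Fin d) :
    ⨍ x in convexHull ℝ (range p), x a = (∑ i, p i a) / ((d : ℝ) + 1) := by
  rw [isoC_avg p hp (fun x => x a) (by fun_prop)]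
  simp only [isoC_coord]
  rw [integral_finsetSum _ (fun i _ => (isoC_int1 d i).mul_const _)]
  simp only [integral_mul_const, isoC_first]
  rw [Finset.sum_div]
  refine Finset.sum_congr rfl fun i _ => ?_
  ring

private theorem isoC_prod {d : ℕ} (hd : 0 < d) (p : Fin (d + 1) → EuclideanSpace ℝ (Fin d))
    (hp : AffineIndependent ℝ p) (a b : Fin d) :
    ⨍ x in convexHull ℝ (range p), x a * x b =
      (1 / (((d : ℝ) + 1) * ((d : ℝ) + 2))) *
        ((∑ i, p i a * p i b) + (∑ i, p i a) * ∑ i, p i b) := by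
  rw [isoC_avg p hp (fun x => x a * x b) (by fun_prop)]
  have h1 : ∀ y : Fin (d + 1) → ℝ, (∑ i, y i • p i) a * (∑ i, y i • p i) b =
      ∑ i, ∑ j, (y i * y j) * (p i a * p j b) := by
    intro y
    rw [isoC_coord, isoC_coord, Finset.sum_mul_sum]
    refine Finset.sum_congr rfl fun i _ => Finset.sum_congr rfl fun j _ => ?_
    ring
  simp only [h1]
  rw [integral_finsetSum _ (fun i _ => integrable_finsetSum _
    (fun j _ => (isoC_int2 d i j).mul_const _))]
  have h2 : ∀ i : Fin (d + 1), ∫ y, ∑ j, (y i * y j) * (p i a * p j b) ∂sig (d + 1) =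
      (1 / (((d : ℝ) + 1) * ((d : ℝ) + 2))) * (p i a * p i b + p i a * ∑ j, p j b) := by
    intro i
    rw [integral_finsetSum _ (fun j _ => (isoC_int2 d i j).mul_const _)]
    simp only [integral_mul_const, isoC_second d hd]
    have h3 : ∀ j : Fin (d + 1), (1 / (((d : ℝ) + 1) * ((d : ℝ) + 2))) *
        ((if i = j then 1 else 0) + 1) * (p i a * p j b) =
        (1 / (((d : ℝ) + 1) * ((d : ℝ) + 2))) *
          ((if i = j then p i a * p j b else 0) + p i a * p j b) := by
      intro j
      split_ifs <;> ring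
    simp only [h3]
    rw [← Finset.mul_sum, Finset.sum_add_distrib, Finset.sum_ite_eq, if_pos (Finset.mem_univ i),
      ← Finset.mul_sum]
  simp only [h2]
  rw [← Finset.mul_sum, Finset.sum_add_distrib, ← Finset.sum_mul]

/-- **The covariance determinant of a simplex.** -/
theorem scCov_simplex {d : ℕ} (hd : 0 < d) (p : Fin (d + 1) → EuclideanSpace ℝ (Fin d))
    (hp : AffineIndependent ℝ p) :
    (scCov d (convexHull ℝ (range p))).det * (((d : ℝ) + 1) ^ (d + 1) * ((d : ℝ) + 2) ^ d) =
      ((d.factorial : ℝ) * (volume (convexHull ℝ (range p))).toReal) ^ 2 := by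
  set D : ℝ := (d : ℝ) + 1 with hD
  set E : ℝ := (d : ℝ) + 2 with hE
  have hD0 : 0 < D := by positivity
  have hE0 : 0 < E := by positivity
  have hf : 0 < (d.factorial : ℝ) := by exact_mod_cast d.factorial_pos
  set P : Fin d → ℝ := fun a => ∑ i, p i a with hP
  set Q : Fin d → Fin d → ℝ := fun a b => ∑ i, p i a * p i b with hQ
  have hcov : E • scCov d (convexHull ℝ (range p)) =
      Matrix.of fun a b => Q a b / D - (P a / D) * (P b / D) := by
    ext a b
    simp only [scCov, Matrix.smul_apply, Matrix.of_apply, smul_eq_mul]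
    rw [isoC_prod hd p hp, isoC_mean p hp, isoC_mean p hp]
    simp only [hP, hQ]
    have hED : E = D + 1 := by rw [hE, hD]; ring
    rw [← hD, ← hE, hED]
    have : D + 1 ≠ 0 := by positivity
    field_simp
    ring
  have hM : (1 / D) • ((scRow p).transpose * scRow p) =
      Matrix.of (Fin.cons (Fin.cons (1 : ℝ) (fun a => P a / D) : Fin (d + 1) → ℝ)
        (fun a => (Fin.cons (P a / D) (fun b => Q a b / D) : Fin (d + 1) → ℝ)) :
          Fin (d + 1) → Fin (d + 1) → ℝ) := by
    ext a b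
    simp only [Matrix.smul_apply, Matrix.mul_apply, Matrix.transpose_apply, smul_eq_mul,
      Matrix.of_apply]
    refine Fin.cases ?_ (fun a => ?_) a
    · refine Fin.cases ?_ (fun b => ?_) b
      · simp [scRow, hD]
        field_simp
      · simp [scRow, hP]
        ring
    · refine Fin.cases ?_ (fun b => ?_) b
      · simp [scRow, hP]
        ring
      · simp [scRow, hQ]
        ring
  have h1 := scCv d (fun a => P a / D) (fun a b => Q a b / D)
  rw [← hM, ← hcov, Matrix.det_smul, Matrix.det_smul, Matrix.det_mul, Matrix.det_transpose,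
    Fintype.card_fin, Fintype.card_fin] at h1
  have h2 : ((d.factorial : ℝ) * (volume (convexHull ℝ (range p))).toReal) ^ 2 =
      (scRow p).det * (scRow p).det := by
    rw [scV]
    have : (d.factorial : ℝ) * (|(scRow p).det| / (d.factorial : ℝ)) = |(scRow p).det| := by
      field_simp
    rw [this, sq_abs, sq]
  rw [h2]
  have h3 : (scRow p).det * (scRow p).det =
      D ^ (d + 1) * ((1 / D) ^ (d + 1) * ((scRow p).det * (scRow p).det)) := by
    rw [← mul_assoc, ← mul_pow, mul_one_div_cancel hD0.ne', one_pow, one_mul]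
  rw [h3, h1]
  ring

end Pool.Agent.Lib.MP_29b1bb_gt
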