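import Pool.Agent.Lib.MP_29b1bb_gt.SC.Defs

/-!
# SC-M: moments of a projected exponential vector

`r` has the law `gam n` (independent exponential coordinates), `P` is a symmetric idempotent matrix
with trace `k`, `q(r) = r ⬝ᵥ (P *ᵥ r) = |P r|² ≥ 0`. Write `r = 1 + f` with the centred coordinates
`f_i`, `E f_i = 0, E f_i² = 1, E f_i³ = 2, E f_i⁴ = 9`. With `a = P *ᵥ 1`, `A = 1 ⬝ᵥ a = |a|² ≥ 0`:
`q = A + 2 a·f + g`, `g = f ⬝ᵥ (P *ᵥ f)`.
* `E q = A + k` (`E g = trace P = k`, `E a·f = 0`);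
* `E q² = A² + 4 E (a·f)² + E g² + 2 A E g + 4 E (a·f) g + 4 A E a·f
       = A² + 4 A + E g² + 2 A k + 4 · 2 ∑ a_i P_ii`,
  `E g² = k² + 2 k + 6 ∑ P_ii²` (`E f_i f_j f_k f_l`: pairings; `∑_{i≠j} P_ii P_jj + 2 ∑_{i≠j} P_ij²
  + 9 ∑ P_ii²`, `∑_{ij} P_ij² = trace (P Pᵀ) = k`), `P_ii² ≤ ∑_j P_ij² = P_ii`, so
  `∑ P_ii² ≤ k` and `E g² ≤ k² + 8 k`;
  `8 ∑ a_i P_ii ≤ 4 ∑ a_i² + 4 ∑ P_ii² ≤ 4 A + 4 k`.
  Total `E q² ≤ (A + k)² + 8 A + 12 k ≤ s² + 12 s`, `s = A + k`.
It is convenient to prove first the moment identities for polynomials of degree ≤ 4 in independent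
coordinates (`integral_fintype_prod_eq_prod`-type computations for `∏ i, f_i ^ (e i)`; or expand
`E q²` over four indices and use `∫ ∏_i (f i)^(e i) = ∏_i ∫ f^(e i)`), or to compute
`E (a·f)²`, `E (a·f) g`, `E g²` by induction on `n`, splitting one coordinate off.
-/

set_option autoImplicit false

open MeasureTheory Set

namespace Pool.Agent.Lib.MP_29b1bb_gt

/-- moments of the exponential law -/
private theorem ccvM_pow (k : ℕ) :
    Integrable (fun x : ℝ => x ^ k) expo ∧ ∫ x, x ^ k ∂expo = (k.factorial : ℝ) := by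
  have hk : (0 : ℝ) < (k : ℝ) + 1 := by positivity
  have h1 := Real.GammaIntegral_convergent hk
  have h2 := Real.Gamma_eq_integral hk
  rw [Real.Gamma_nat_eq_factorial] at h2
  have hm : Measurable (fun x : ℝ => ENNReal.ofReal (Real.exp (-x))) := by fun_prop
  have hlt : ∀ᵐ x ∂(volume.restrict (Ioi (0 : ℝ))), ENNReal.ofReal (Real.exp (-x)) < ⊤ :=
    Filter.Eventually.of_forall fun x => ENNReal.ofReal_lt_top
  have he : ∀ x : ℝ, (ENNReal.ofReal (Real.exp (-x))).toReal • x ^ k =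
      Real.exp (-x) * x ^ ((k : ℝ) + 1 - 1) := by
    intro x
    rw [ENNReal.toReal_ofReal (Real.exp_pos _).le, smul_eq_mul, add_sub_cancel_right,
      Real.rpow_natCast]
  constructor
  · unfold expo
    rw [integrable_withDensity_iff_integrable_smul' hm hlt]
    simp only [he]
    exact h1
  · unfold expo
    rw [integral_withDensity_eq_integral_toReal_smul hm hlt]
    simp only [he]
    exact h2.symm

/-- mean of a sum, with integrability -/
private theorem ccvM_add {α : Type} [MeasurableSpace α] {μ : Measure α} {f g : α → ℝ} {A B : ℝ}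
    (hf : Integrable f μ ∧ ∫ x, f x ∂μ = A) (hg : Integrable g μ ∧ ∫ x, g x ∂μ = B) :
    Integrable (fun x => f x + g x) μ ∧ ∫ x, (f x + g x) ∂μ = A + B :=
  ⟨hf.1.add hg.1, by rw [integral_add hf.1 hg.1, hf.2, hg.2]⟩

/-- mean of a multiple, with integrability -/
private theorem ccvM_mul {α : Type} [MeasurableSpace α] {μ : Measure α} {f : α → ℝ} {A : ℝ}
    (c : ℝ) (hf : Integrable f μ ∧ ∫ x, f x ∂μ = A) :
    Integrable (fun x => c * f x) μ ∧ ∫ x, c * f x ∂μ = c * A :=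
  ⟨hf.1.const_mul c, by rw [integral_const_mul, hf.2]⟩

/-- mean of a constant -/
private theorem ccvM_const {α : Type} [MeasurableSpace α] {μ : Measure α} [IsProbabilityMeasure μ]
    (c : ℝ) : Integrable (fun _ : α => c) μ ∧ ∫ _x : α, c ∂μ = c :=
  ⟨integrable_const _, by simp⟩

/-- mean of a product of functions of the two coordinates -/
private theorem ccvM_prod {α β : Type} [MeasurableSpace α] [MeasurableSpace β] {μ : Measure α}
    {ν : Measure β} [IsProbabilityMeasure μ] [IsProbabilityMeasure ν] {f : α → ℝ} {g : β → ℝ}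
    {A B : ℝ} (hf : Integrable f μ ∧ ∫ x, f x ∂μ = A) (hg : Integrable g ν ∧ ∫ x, g x ∂ν = B) :
    Integrable (fun q : α × β => f q.1 * g q.2) (μ.prod ν) ∧
      ∫ q : α × β, f q.1 * g q.2 ∂(μ.prod ν) = A * B :=
  ⟨hf.1.mul_prod hg.1, by rw [integral_prod_mul, hf.2, hg.2]⟩

/-- centred moments of the exponential law -/
private theorem ccvM_c1 : Integrable (fun x : ℝ => x - 1) expo ∧ ∫ x, (x - 1) ∂expo = 0 := by
  have h1 := ccvM_pow 1
  simp only [pow_one] at h1
  have h := ccvM_add h1 (ccvM_const (μ := expo) (-1))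
  refine ⟨?_, ?_⟩
  · simpa only [sub_eq_add_neg] using h.1
  · simp only [sub_eq_add_neg]
    rw [h.2]
    simp

private theorem ccvM_c2 : Integrable (fun x : ℝ => (x - 1) ^ 2) expo ∧
    ∫ x, (x - 1) ^ 2 ∂expo = 1 := by
  have he : ∀ x : ℝ, (x - 1) ^ 2 = x ^ 2 + (-2) * x ^ 1 + 1 := fun x => by ring
  have h := ccvM_add (ccvM_add (ccvM_pow 2) (ccvM_mul (-2) (ccvM_pow 1)))
    (ccvM_const (μ := expo) 1)
  simp only [he]
  refine ⟨h.1, ?_⟩
  rw [h.2]
  simp [Nat.factorial]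

private theorem ccvM_c3 : Integrable (fun x : ℝ => (x - 1) ^ 3) expo ∧
    ∫ x, (x - 1) ^ 3 ∂expo = 2 := by
  have he : ∀ x : ℝ, (x - 1) ^ 3 = x ^ 3 + (-3) * x ^ 2 + 3 * x ^ 1 + (-1) := fun x => by ring
  have h := ccvM_add (ccvM_add (ccvM_add (ccvM_pow 3) (ccvM_mul (-3) (ccvM_pow 2)))
    (ccvM_mul 3 (ccvM_pow 1))) (ccvM_const (μ := expo) (-1))
  simp only [he]
  refine ⟨h.1, ?_⟩
  rw [h.2]
  simp [Nat.factorial]
  norm_num

private theorem ccvM_c4 : Integrable (fun x : ℝ => (x - 1) ^ 4) expo ∧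
    ∫ x, (x - 1) ^ 4 ∂expo = 9 := by
  have he : ∀ x : ℝ, (x - 1) ^ 4 = x ^ 4 + (-4) * x ^ 3 + 6 * x ^ 2 + (-4) * x ^ 1 + 1 :=
    fun x => by ring
  have h := ccvM_add (ccvM_add (ccvM_add (ccvM_add (ccvM_pow 4) (ccvM_mul (-4) (ccvM_pow 3)))
    (ccvM_mul 6 (ccvM_pow 2))) (ccvM_mul (-4) (ccvM_pow 1))) (ccvM_const (μ := expo) 1)
  simp only [he]
  refine ⟨h.1, ?_⟩
  rw [h.2]
  simp [Nat.factorial]
  norm_num

/-- Fubini for the first coordinate -/
private theorem ccvM_split (n : ℕ) (F : (Fin (n + 1) → ℝ) → ℝ) :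
    (Integrable F (gam (n + 1)) ↔
      Integrable (fun q : ℝ × (Fin n → ℝ) => F (Fin.cons q.1 q.2)) (expo.prod (gam n))) ∧
    ∫ r, F r ∂(gam (n + 1)) =
      ∫ q : ℝ × (Fin n → ℝ), F (Fin.cons q.1 q.2) ∂(expo.prod (gam n)) := by
  have hmp := (measurePreserving_piFinSuccAbove (fun _ : Fin (n + 1) => expo) 0).symm
  have he : ∀ q : ℝ × (Fin n → ℝ),
      (MeasurableEquiv.piFinSuccAbove (fun _ : Fin (n + 1) => ℝ) 0).symm q =
        (Fin.cons q.1 q.2 : Fin (n + 1) → ℝ) := by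
    intro q
    funext i
    refine Fin.cases ?_ (fun j => ?_) i
    · rfl
    · rfl
  constructor
  · have h1 := hmp.integrable_comp_emb (MeasurableEquiv.measurableEmbedding _) (g := F)
    have h2 : (F ∘ (MeasurableEquiv.piFinSuccAbove (fun _ : Fin (n + 1) => ℝ) 0).symm) =
        (fun q : ℝ × (Fin n → ℝ) => F (Fin.cons q.1 q.2)) := by
      funext q
      simp only [Function.comp, he]
    rw [h2] at h1
    exact h1.symm
  · have h1 := hmp.integral_comp (MeasurableEquiv.measurableEmbedding _) F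
    simp only [he] at h1
    exact h1.symm

/-- a quadratic polynomial in the centred coordinates -/
private noncomputable def ccvM_Q (n : ℕ) (c : ℝ) (b : Fin n → ℝ) (M : Fin n → Fin n → ℝ)
    (r : Fin n → ℝ) : ℝ :=
  c + ∑ i, b i * (r i - 1) + ∑ i, ∑ j, M i j * (r i - 1) * (r j - 1)

private theorem ccvM_Qcons (n : ℕ) (c : ℝ) (b : Fin (n + 1) → ℝ)
    (M : Fin (n + 1) → Fin (n + 1) → ℝ) (hM : ∀ i j, M i j = M j i) (x : ℝ) (y : Fin n → ℝ) :
    ccvM_Q (n + 1) c b M (Fin.cons x y) =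
      ccvM_Q n c (fun i => b i.succ) (fun i j => M i.succ j.succ) y +
        (x - 1) * ccvM_Q n (b 0) (fun j => 2 * M 0 j.succ) (fun _ _ => 0) y +
        (x - 1) ^ 2 * M 0 0 := by
  unfold ccvM_Q
  simp only [Fin.sum_univ_succ, Fin.cons_zero, Fin.cons_succ, zero_mul, Finset.sum_const_zero,
    add_zero, Finset.sum_add_distrib]
  have h1 : ∑ i : Fin n, M i.succ 0 * (y i - 1) * (x - 1) =
      (x - 1) * ∑ i : Fin n, M 0 i.succ * (y i - 1) := by
    rw [Finset.mul_sum]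
    exact Finset.sum_congr rfl fun i _ => by rw [hM i.succ 0]; ring
  have h2 : ∑ i : Fin n, M 0 i.succ * (x - 1) * (y i - 1) =
      (x - 1) * ∑ i : Fin n, M 0 i.succ * (y i - 1) := by
    rw [Finset.mul_sum]
    exact Finset.sum_congr rfl fun i _ => by ring
  have h3 : ∑ i : Fin n, 2 * M 0 i.succ * (y i - 1) =
      2 * ∑ i : Fin n, M 0 i.succ * (y i - 1) := by
    rw [Finset.mul_sum]
    exact Finset.sum_congr rfl fun i _ => by ring
  rw [h1, h2, h3]
  ring

/-- the main moment identity -/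
private theorem ccvM_main (n : ℕ) : ∀ (c : ℝ) (b : Fin n → ℝ) (M : Fin n → Fin n → ℝ),
    (∀ i j, M i j = M j i) →
    Integrable (ccvM_Q n c b M) (gam n) ∧
    Integrable (fun r => ccvM_Q n c b M r ^ 2) (gam n) ∧
    ∫ r, ccvM_Q n c b M r ∂(gam n) = c + ∑ i, M i i ∧
    ∫ r, ccvM_Q n c b M r ^ 2 ∂(gam n) = (c + ∑ i, M i i) ^ 2 + ∑ i, b i ^ 2 +
      4 * ∑ i, b i * M i i + 2 * ∑ i, ∑ j, M i j ^ 2 + 6 * ∑ i, M i i ^ 2 := by
  induction n with
  | zero =>
    intro c b M hM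
    have h : ccvM_Q 0 c b M = fun _ => c := by
      funext r
      simp [ccvM_Q]
    rw [h]
    refine ⟨integrable_const _, integrable_const _, ?_, ?_⟩
    · simp
    · simp
  | succ n ih =>
    intro c b M hM
    obtain ⟨iU, iU2, mU, mU2⟩ := ih c (fun i => b i.succ) (fun i j => M i.succ j.succ)
      (fun i j => hM _ _)
    obtain ⟨iV, iV2, mV, mV2⟩ := ih (b 0) (fun j => 2 * M 0 j.succ) (fun _ _ => 0)
      (fun i j => rfl)
    set U := ccvM_Q n c (fun i => b i.succ) (fun i j => M i.succ j.succ) with hU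
    set V := ccvM_Q n (b 0) (fun j => 2 * M 0 j.succ) (fun _ _ => 0) with hV
    set a : ℝ := M 0 0 with ha
    have iUV : Integrable (fun y => U y * V y) (gam n) := by
      have h1 : AEStronglyMeasurable (fun y => U y * V y) (gam n) :=
        iU.aestronglyMeasurable.mul iV.aestronglyMeasurable
      refine Integrable.mono' (iU2.add iV2) h1 ?_
      refine Filter.Eventually.of_forall fun y => ?_
      rw [Real.norm_eq_abs, abs_mul]
      simp only [Pi.add_apply]
      nlinarith [sq_nonneg (|U y| - |V y|), sq_abs (U y), sq_abs (V y), abs_nonneg (U y),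
        abs_nonneg (V y)]
    have hc0 : Integrable (fun _ : ℝ => (1 : ℝ)) expo ∧ ∫ _x : ℝ, (1 : ℝ) ∂expo = 1 :=
      ccvM_const 1
    -- first moment
    have e1 : ∀ q : ℝ × (Fin n → ℝ), ccvM_Q (n + 1) c b M (Fin.cons q.1 q.2) =
        1 * U q.2 + (q.1 - 1) * V q.2 + (q.1 - 1) ^ 2 * a := by
      intro q
      rw [ccvM_Qcons n c b M hM q.1 q.2, one_mul]
    have w1 := ccvM_add (ccvM_add (ccvM_prod hc0 ⟨iU, mU⟩) (ccvM_prod ccvM_c1 ⟨iV, mV⟩))
      (ccvM_prod ccvM_c2 (ccvM_const (μ := gam n) a))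
    have e2 : ∀ q : ℝ × (Fin n → ℝ), ccvM_Q (n + 1) c b M (Fin.cons q.1 q.2) ^ 2 =
        1 * U q.2 ^ 2 + (q.1 - 1) * (2 * (U q.2 * V q.2)) +
          (q.1 - 1) ^ 2 * (V q.2 ^ 2 + 2 * a * U q.2) + (q.1 - 1) ^ 3 * (2 * a * V q.2) +
          (q.1 - 1) ^ 4 * a ^ 2 := by
      intro q
      rw [e1 q]
      ring
    have w2 := ccvM_add (ccvM_add (ccvM_add (ccvM_add (ccvM_prod hc0 ⟨iU2, mU2⟩)
      (ccvM_prod ccvM_c1 (ccvM_mul 2 ⟨iUV, rfl⟩)))
      (ccvM_prod ccvM_c2 (ccvM_add ⟨iV2, mV2⟩ (ccvM_mul (2 * a) ⟨iU, mU⟩))))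
      (ccvM_prod ccvM_c3 (ccvM_mul (2 * a) ⟨iV, mV⟩)))
      (ccvM_prod ccvM_c4 (ccvM_const (μ := gam n) (a ^ 2)))
    refine ⟨?_, ?_, ?_, ?_⟩
    · rw [(ccvM_split n _).1]
      simp only [e1]
      exact w1.1
    · rw [(ccvM_split n _).1]
      simp only [e2]
      exact w2.1
    · rw [(ccvM_split n _).2]
      simp only [e1]
      rw [w1.2, Fin.sum_univ_succ]
      ring
    · rw [(ccvM_split n _).2]
      simp only [e2]
      rw [w2.2]
      simp only [Finset.sum_const_zero, mul_zero, add_zero, zero_mul, mul_pow]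
      have t1 : ∑ i : Fin (n + 1), ∑ j : Fin (n + 1), M i j ^ 2 =
          a ^ 2 + 2 * ∑ j : Fin n, M 0 j.succ ^ 2 +
            ∑ i : Fin n, ∑ j : Fin n, M i.succ j.succ ^ 2 := by
        rw [Fin.sum_univ_succ, Fin.sum_univ_succ]
        have : ∀ i : Fin n, ∑ j : Fin (n + 1), M i.succ j ^ 2 =
            M 0 i.succ ^ 2 + ∑ j : Fin n, M i.succ j.succ ^ 2 := by
          intro i
          rw [Fin.sum_univ_succ, hM i.succ 0]
        simp only [this]
        rw [Finset.sum_add_distrib]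
        ring
      rw [t1, Fin.sum_univ_succ (fun i => M i i), Fin.sum_univ_succ (fun i => b i ^ 2),
        Fin.sum_univ_succ (fun i => b i * M i i), Fin.sum_univ_succ (fun i => M i i ^ 2),
        ← Finset.mul_sum]
      norm_num
      ring

/-- moments of the projected exponential vector -/
theorem scM (n : ℕ) (P : Matrix (Fin n) (Fin n) ℝ) (hs : P.transpose = P) (hp : P * P = P)
    (k : ℝ) (hk : P.trace = k) :
    ∃ s : ℝ, k ≤ s ∧
      Integrable (fun r : Fin n → ℝ => r ⬝ᵥ (P.mulVec r)) (gam n) ∧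
      Integrable (fun r : Fin n → ℝ => (r ⬝ᵥ (P.mulVec r)) ^ 2) (gam n) ∧
      ∫ r, r ⬝ᵥ (P.mulVec r) ∂(gam n) = s ∧
      ∫ r, (r ⬝ᵥ (P.mulVec r)) ^ 2 ∂(gam n) ≤ s ^ 2 + 12 * s := by
  have hsym : ∀ i j, P i j = P j i := by
    intro i j
    have := congrFun (congrFun hs j) i
    simpa [Matrix.transpose_apply] using this
  have hidem : ∀ i j, ∑ l, P i l * P l j = P i j := by
    intro i j
    have := congrFun (congrFun hp i) j
    simpa [Matrix.mul_apply] using this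
  set a : Fin n → ℝ := fun i => ∑ j, P i j with ha
  set A : ℝ := ∑ i, a i with hA
  have hq : ∀ r : Fin n → ℝ, r ⬝ᵥ (P.mulVec r) =
      ccvM_Q n A (fun i => 2 * a i) (fun i j => P i j) r := by
    intro r
    unfold ccvM_Q
    have h1 : r ⬝ᵥ (P.mulVec r) = ∑ i, ∑ j, P i j * r i * r j := by
      simp only [dotProduct, Matrix.mulVec, Finset.mul_sum]
      exact Finset.sum_congr rfl fun i _ => Finset.sum_congr rfl fun j _ => by ring
    have h2 : ∑ i, ∑ j, P i j * (r i - 1) * (r j - 1) =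
        ∑ i, ∑ j, P i j * r i * r j - ∑ i, ∑ j, P i j * r i - ∑ i, ∑ j, P i j * r j +
          ∑ i, ∑ j, P i j := by
      simp only [← Finset.sum_sub_distrib, ← Finset.sum_add_distrib]
      exact Finset.sum_congr rfl fun i _ => Finset.sum_congr rfl fun j _ => by ring
    have h3 : ∑ i, ∑ j, P i j * r i = ∑ i, a i * r i := by
      refine Finset.sum_congr rfl fun i _ => ?_
      rw [ha, Finset.sum_mul]
    have h4 : ∑ i, ∑ j, P i j * r j = ∑ i, a i * r i := by
      rw [Finset.sum_comm, ← h3]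
      refine Finset.sum_congr rfl fun i _ => Finset.sum_congr rfl fun j _ => ?_
      rw [hsym j i]
    have h5 : ∑ i, 2 * a i * (r i - 1) = 2 * ∑ i, a i * r i - 2 * A := by
      rw [hA, Finset.mul_sum, Finset.mul_sum, ← Finset.sum_sub_distrib]
      exact Finset.sum_congr rfl fun i _ => by ring
    rw [h1, h2, h3, h4, h5]
    have h6 : ∑ i, ∑ j, P i j = A := rfl
    rw [h6]
    ring
  obtain ⟨i1, i2, m1, m2⟩ := ccvM_main n A (fun i => 2 * a i) (fun i j => P i j) hsym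
  have htr : ∑ i, P i i = k := by
    rw [← hk]; rfl
  have haa : ∑ i, a i ^ 2 = A := by
    have h1 : ∀ i, a i ^ 2 = ∑ j, ∑ l, P j i * P i l := by
      intro i
      rw [pow_two, ha]
      simp only
      rw [Finset.sum_mul_sum]
      refine Finset.sum_congr rfl fun j _ => Finset.sum_congr rfl fun l _ => ?_
      rw [hsym i j]
    simp only [h1]
    rw [Finset.sum_comm]
    rw [hA]
    refine Finset.sum_congr rfl fun j _ => ?_
    rw [Finset.sum_comm]
    rw [ha]
    exact Finset.sum_congr rfl fun l _ => hidem j l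
  have hpp : ∀ i, ∑ j, P i j ^ 2 = P i i := by
    intro i
    rw [← hidem i i]
    exact Finset.sum_congr rfl fun j _ => by rw [pow_two, hsym j i]
  have hPP : ∑ i, ∑ j, P i j ^ 2 = k := by
    simp only [hpp]
    exact htr
  have hPii : ∑ i, P i i ^ 2 ≤ k := by
    rw [← htr]
    refine Finset.sum_le_sum fun i _ => ?_
    have h1 : P i i ^ 2 ≤ ∑ j, P i j ^ 2 :=
      Finset.single_le_sum (f := fun j => P i j ^ 2) (fun j _ => sq_nonneg _) (Finset.mem_univ i)
    rw [hpp i] at h1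
    exact h1
  have hA0 : 0 ≤ A := by
    rw [← haa]
    exact Finset.sum_nonneg fun i _ => sq_nonneg _
  have hcr : 2 * ∑ i, a i * P i i ≤ ∑ i, a i ^ 2 + ∑ i, P i i ^ 2 := by
    rw [Finset.mul_sum, ← Finset.sum_add_distrib]
    refine Finset.sum_le_sum fun i _ => ?_
    nlinarith [sq_nonneg (a i - P i i)]
  refine ⟨A + k, by linarith, ?_, ?_, ?_, ?_⟩
  · simp only [hq]
    exact i1
  · simp only [hq]
    exact i2
  · simp only [hq]
    rw [m1, htr]
  · simp only [hq]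
    rw [m2, htr, hPP]
    have h1 : ∑ i, (2 * a i) ^ 2 = 4 * ∑ i, a i ^ 2 := by
      rw [Finset.mul_sum]
      exact Finset.sum_congr rfl fun i _ => by ring
    have h2 : ∑ i, 2 * a i * P i i = 2 * ∑ i, a i * P i i := by
      rw [Finset.mul_sum]
      exact Finset.sum_congr rfl fun i _ => by ring
    rw [h1, h2]
    nlinarith

end Pool.Agent.Lib.MP_29b1bb_gt
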