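import Pool.Agent.Lib.MP_29b1bb_gt.SC.Defs

/-!
# SC-N: the numerical comparison

`∏_{k<d+1} scC (k+1) = √((d+1)!) / √(C(d+13, 12))` (since `∏ (k+1)² / (k+13) = (n!)² · 12!/(n+12)!
= n!/C(n+12,12)`, `n = d+1`). Needed: for `0 < ε < 1` and all large `d`
`√((d+1)/d!) ((1-ε)/e)^d (d+1)^(d+1) ≤ ∏_{k<d+1} scC (k+1)`.
Divide by `√((d+1)!)`: `√((d+1)/d!)/√((d+1)!) = 1/d!`, so it is
`(d+1)^(d+1) ((1-ε)/e)^d √C(d+13,12) ≤ d!`; with `d! ≥ (d/e)^d` (e.g. `e^d ≥ d^d/d!`, a term of the series; Mathlib: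
`Real.pow_div_factorial_le_exp` or `Nat.factorial_lt`…) and `(1+1/d)^d ≤ e` it is enough that
`e (d+1) √C(d+13,12) (1-ε)^d ≤ 1`, true for large `d`: `C(d+13,12) ≤ (d+13)^12`, and polynomial times
`(1-ε)^d` tends to `0` (`tendsto_pow_const_mul_const_pow_of_abs_lt_one`).
(The product form is by induction; for the inequality only `≥` matters.)
-/

set_option autoImplicit false

open MeasureTheory Set

namespace Pool.Agent.Lib.MP_29b1bb_gt

private theorem ccvN_prod (n : ℕ) :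
    (∏ k ∈ Finset.range n, ((k : ℝ) + 13)) * (Nat.factorial 12 : ℝ) = ((n + 12).factorial : ℝ) := by
  induction n with
  | zero => simp
  | succ n ih =>
    have h : (((n + 1 + 12).factorial : ℕ) : ℝ) =
        (((n + 12 : ℕ) : ℝ) + 1) * (((n + 12).factorial : ℕ) : ℝ) := by
      have h1 : (n + 1 + 12).factorial = (n + 12 + 1) * (n + 12).factorial :=
        Nat.factorial_succ (n + 12)
      rw [h1]
      push_cast
      ring
    rw [Finset.prod_range_succ, mul_right_comm, ih, h]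
    push_cast
    ring

private theorem ccvN_prod_le (n : ℕ) :
    ∏ k ∈ Finset.range n, ((k : ℝ) + 13) ≤ (n.factorial : ℝ) * ((n : ℝ) + 12) ^ 12 := by
  have h1 : (n + 12).factorial ≤ n.factorial * (n + 12) ^ 12 := by
    rw [← Nat.factorial_mul_ascFactorial]
    exact Nat.mul_le_mul_left _ (Nat.ascFactorial_le_pow_add n 12)
  have h2 : ((n + 12).factorial : ℝ) ≤ (n.factorial : ℝ) * ((n : ℝ) + 12) ^ 12 := by
    exact_mod_cast h1
  have h3 : (1 : ℝ) ≤ (Nat.factorial 12 : ℝ) := by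
    exact_mod_cast Nat.one_le_iff_ne_zero.2 (Nat.factorial_ne_zero 12)
  have h4 : 0 ≤ ∏ k ∈ Finset.range n, ((k : ℝ) + 13) := by positivity
  have h5 := ccvN_prod n
  calc ∏ k ∈ Finset.range n, ((k : ℝ) + 13)
      ≤ (∏ k ∈ Finset.range n, ((k : ℝ) + 13)) * (Nat.factorial 12 : ℝ) :=
        le_mul_of_one_le_right h4 h3
    _ = ((n + 12).factorial : ℝ) := h5
    _ ≤ _ := h2

private theorem ccvN_sqrt (n : ℕ) : ∏ k ∈ Finset.range n, Real.sqrt ((k : ℝ) + 13) =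
    Real.sqrt (∏ k ∈ Finset.range n, ((k : ℝ) + 13)) := by
  induction n with
  | zero => simp
  | succ n ih =>
    have h : 0 ≤ ∏ k ∈ Finset.range n, ((k : ℝ) + 13) := by positivity
    rw [Finset.prod_range_succ, Finset.prod_range_succ, ih, Real.sqrt_mul h]

private theorem ccvN_lower (n : ℕ) :
    Real.sqrt (n.factorial : ℝ) / ((n : ℝ) + 12) ^ 6 ≤ ∏ k ∈ Finset.range n, scC (k + 1) := by
  have h1 : ∏ k ∈ Finset.range n, scC (k + 1) =
      (n.factorial : ℝ) / Real.sqrt (∏ k ∈ Finset.range n, ((k : ℝ) + 13)) := by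
    have h2 : ∀ k : ℕ, scC (k + 1) = ((k : ℝ) + 1) / Real.sqrt ((k : ℝ) + 13) := by
      intro k
      unfold scC
      push_cast
      congr 2
      ring
    simp only [h2]
    rw [Finset.prod_div_distrib, ccvN_sqrt]
    congr 1
    rw [← Finset.prod_range_add_one_eq_factorial]
    push_cast
    rfl
  have hP : 0 < ∏ k ∈ Finset.range n, ((k : ℝ) + 13) := by positivity
  have hf : 0 < (n.factorial : ℝ) := by exact_mod_cast n.factorial_pos
  have hn : 0 < (n : ℝ) + 12 := by positivity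
  have h3 : Real.sqrt (∏ k ∈ Finset.range n, ((k : ℝ) + 13)) ≤
      Real.sqrt (n.factorial : ℝ) * ((n : ℝ) + 12) ^ 6 := by
    have h4 := Real.sqrt_le_sqrt (ccvN_prod_le n)
    rw [Real.sqrt_mul hf.le] at h4
    have h5 : Real.sqrt (((n : ℝ) + 12) ^ 12) = ((n : ℝ) + 12) ^ 6 := by
      rw [show ((n : ℝ) + 12) ^ 12 = (((n : ℝ) + 12) ^ 6) ^ 2 by ring]
      exact Real.sqrt_sq (by positivity)
    rwa [h5] at h4
  rw [h1, div_le_div_iff₀ (by positivity) (Real.sqrt_pos.2 hP)]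
  calc Real.sqrt (n.factorial : ℝ) * Real.sqrt (∏ k ∈ Finset.range n, ((k : ℝ) + 13))
      ≤ Real.sqrt (n.factorial : ℝ) * (Real.sqrt (n.factorial : ℝ) * ((n : ℝ) + 12) ^ 6) :=
        mul_le_mul_of_nonneg_left h3 (Real.sqrt_nonneg _)
    _ = (n.factorial : ℝ) * ((n : ℝ) + 12) ^ 6 := by
        rw [← mul_assoc, Real.mul_self_sqrt hf.le]

/-- `(d+1)^(d+1) e^(-d) ≤ e (d+1) d!` -/
private theorem ccvN_fac (d : ℕ) (hd : 1 ≤ d) :
    ((d : ℝ) + 1) ^ (d + 1) ≤ Real.exp 1 * ((d : ℝ) + 1) * (d.factorial : ℝ) * Real.exp 1 ^ d := by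
  have hd0 : (0 : ℝ) < d := by exact_mod_cast hd
  have hf : 0 < (d.factorial : ℝ) := by exact_mod_cast d.factorial_pos
  have h1 : (d : ℝ) ^ d ≤ Real.exp 1 ^ d * (d.factorial : ℝ) := by
    have h := Real.pow_div_factorial_le_exp (d : ℝ) hd0.le d
    rw [div_le_iff₀ hf] at h
    rwa [← Real.exp_nat_mul, mul_one]
  have h2 : ((d : ℝ) + 1) ^ d ≤ Real.exp 1 * (d : ℝ) ^ d := by
    have h3 : (1 + 1 / (d : ℝ)) ^ d ≤ Real.exp 1 := by
      have h4 : 1 + 1 / (d : ℝ) ≤ Real.exp (1 / (d : ℝ)) := by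
        have := Real.add_one_le_exp (1 / (d : ℝ))
        linarith
      calc (1 + 1 / (d : ℝ)) ^ d ≤ Real.exp (1 / (d : ℝ)) ^ d :=
            pow_le_pow_left₀ (by positivity) h4 d
        _ = Real.exp 1 := by
            rw [← Real.exp_nat_mul]
            congr 1
            field_simp
    have h5 : ((d : ℝ) + 1) ^ d = (1 + 1 / (d : ℝ)) ^ d * (d : ℝ) ^ d := by
      rw [← mul_pow]
      congr 1
      field_simp
    rw [h5]
    exact mul_le_mul_of_nonneg_right h3 (by positivity)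
  calc ((d : ℝ) + 1) ^ (d + 1) = ((d : ℝ) + 1) ^ d * ((d : ℝ) + 1) := pow_succ _ _
    _ ≤ (Real.exp 1 * (d : ℝ) ^ d) * ((d : ℝ) + 1) := by gcongr
    _ ≤ (Real.exp 1 * (Real.exp 1 ^ d * (d.factorial : ℝ))) * ((d : ℝ) + 1) := by gcongr
    _ = _ := by ring

theorem scN (ε : ℝ) (hε : 0 < ε) (hε1 : ε < 1) : ∃ d₀ : ℕ, ∀ d : ℕ, d₀ ≤ d →
    Real.sqrt (((d : ℝ) + 1) / (d.factorial : ℝ)) * ((1 - ε) / Real.exp 1) ^ d *
      ((d : ℝ) + 1) ^ (d + 1) ≤ ∏ k ∈ Finset.range (d + 1), scC (k + 1) := by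
  have hq : |1 - ε| < 1 := by
    rw [abs_lt]
    constructor <;> linarith
  have hq0 : 0 ≤ 1 - ε := by linarith
  have hc : 0 < 1 / (Real.exp 1 * 14 ^ 7) := by positivity
  have h0 := (tendsto_pow_const_mul_const_pow_of_abs_lt_one 7 hq).eventually (gt_mem_nhds hc)
  obtain ⟨N, hN⟩ := Filter.eventually_atTop.1 h0
  refine ⟨max N 1, fun d hd => ?_⟩
  have hd1 : 1 ≤ d := (le_max_right N 1).trans hd
  have hdN := hN d ((le_max_left N 1).trans hd)
  have hd0 : (1 : ℝ) ≤ d := by exact_mod_cast hd1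
  have hf : 0 < (d.factorial : ℝ) := by exact_mod_cast d.factorial_pos
  have he : 0 < Real.exp 1 := Real.exp_pos 1
  have hlow := ccvN_lower (d + 1)
  refine le_trans ?_ hlow
  have hsq : Real.sqrt (((d + 1).factorial : ℕ) : ℝ) =
      Real.sqrt (((d : ℝ) + 1) / (d.factorial : ℝ)) * (d.factorial : ℝ) := by
    have h1 : (((d + 1).factorial : ℕ) : ℝ) =
        (((d : ℝ) + 1) / (d.factorial : ℝ)) * (d.factorial : ℝ) ^ 2 := by
      rw [Nat.factorial_succ]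
      push_cast
      field_simp
    rw [h1, Real.sqrt_mul (by positivity), Real.sqrt_sq hf.le]
  rw [hsq, mul_assoc, mul_div_assoc]
  refine mul_le_mul_of_nonneg_left ?_ (Real.sqrt_nonneg _)
  push_cast
  rw [le_div_iff₀ (by positivity)]
  -- main inequality
  have h1 := ccvN_fac d hd1
  have h2 : ((1 - ε) / Real.exp 1) ^ d * ((d : ℝ) + 1) ^ (d + 1) ≤
      (1 - ε) ^ d * (Real.exp 1 * ((d : ℝ) + 1) * (d.factorial : ℝ)) := by
    rw [div_pow]
    have h3 : (1 - ε) ^ d / Real.exp 1 ^ d * ((d : ℝ) + 1) ^ (d + 1) =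
        (1 - ε) ^ d * (((d : ℝ) + 1) ^ (d + 1) / Real.exp 1 ^ d) := by ring
    rw [h3]
    refine mul_le_mul_of_nonneg_left ?_ (pow_nonneg hq0 d)
    rw [div_le_iff₀ (by positivity)]
    exact h1
  have h4 : ((d : ℝ) + 1) * ((d : ℝ) + 1 + 12) ^ 6 ≤ 14 ^ 7 * (d : ℝ) ^ 7 := by
    have h5 : (d : ℝ) + 1 ≤ 14 * d := by linarith
    have h6 : (d : ℝ) + 1 + 12 ≤ 14 * d := by linarith
    calc ((d : ℝ) + 1) * ((d : ℝ) + 1 + 12) ^ 6 ≤ (14 * d) * (14 * d) ^ 6 := by gcongr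
      _ = 14 ^ 7 * (d : ℝ) ^ 7 := by ring
  have h7 : (1 - ε) ^ d * (Real.exp 1 * (((d : ℝ) + 1) * ((d : ℝ) + 1 + 12) ^ 6)) ≤ 1 := by
    calc (1 - ε) ^ d * (Real.exp 1 * (((d : ℝ) + 1) * ((d : ℝ) + 1 + 12) ^ 6))
        ≤ (1 - ε) ^ d * (Real.exp 1 * (14 ^ 7 * (d : ℝ) ^ 7)) := by
          refine mul_le_mul_of_nonneg_left ?_ (pow_nonneg hq0 d)
          exact mul_le_mul_of_nonneg_left h4 he.le
      _ = ((d : ℝ) ^ 7 * (1 - ε) ^ d) * (Real.exp 1 * 14 ^ 7) := by ring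
      _ ≤ (1 / (Real.exp 1 * 14 ^ 7)) * (Real.exp 1 * 14 ^ 7) :=
          mul_le_mul_of_nonneg_right hdN.le (by positivity)
      _ = 1 := by field_simp
  calc ((1 - ε) / Real.exp 1) ^ d * ((d : ℝ) + 1) ^ (d + 1) * ((d : ℝ) + 1 + 12) ^ 6
      ≤ ((1 - ε) ^ d * (Real.exp 1 * ((d : ℝ) + 1) * (d.factorial : ℝ))) *
          ((d : ℝ) + 1 + 12) ^ 6 := mul_le_mul_of_nonneg_right h2 (by positivity)
    _ = ((1 - ε) ^ d * (Real.exp 1 * (((d : ℝ) + 1) * ((d : ℝ) + 1 + 12) ^ 6))) *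
          (d.factorial : ℝ) := by ring
    _ ≤ 1 * (d.factorial : ℝ) := mul_le_mul_of_nonneg_right h7 hf.le
    _ = (d.factorial : ℝ) := one_mul _

end Pool.Agent.Lib.MP_29b1bb_gt
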