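import Pool.Agent.Lib.MP_29b1bb_gt.SC.Up
import Pool.Agent.Lib.MP_29b1bb_gt.SC.D
import Pool.Agent.Lib.MP_29b1bb_gt.SC.H
import Pool.Agent.Lib.MP_29b1bb_gt.SC.N

/-!
# SC-Main: the covariance criterion for the simplex inequality in high dimension
-/

set_option autoImplicit false

open MeasureTheory Set

namespace Pool.Agent.Lib.MP_29b1bb_gt

/-- lower bound for the simplex -/
theorem sc_simplex {d : ℕ} (p : Fin (d + 1) → EuclideanSpace ℝ (Fin d))
    (hp : AffineIndependent ℝ p) :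
    (volume (convexHull ℝ (Set.range p))).toReal *
      ((∏ k ∈ Finset.range (d + 1), scC (k + 1)) / ((d : ℝ) + 1) ^ (d + 1)) ≤
      scMean d (convexHull ℝ (Set.range p)) := by
  have h1 : scMean d (convexHull ℝ (Set.range p)) =
      (volume (convexHull ℝ (Set.range p))).toReal * Gdet d univ := simplex_value p hp
  rw [h1]
  refine mul_le_mul_of_nonneg_left ?_ ENNReal.toReal_nonneg
  have h2 := (scD (d + 1)).2
  rw [scH d] at h2
  have h3 : (0 : ℝ) < ((d : ℝ) + 1) ^ (d + 1) := by positivity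
  rw [div_le_iff₀ h3]
  linarith

/-- **Covariance criterion.** For every `ε > 0` and all `d ≥ d₀(ε)`: every compact set `K ⊂ ℝ^d`
with nonempty interior and `det Cov(K) ≤ ((1-ε)/e)^(2d) |K|²` satisfies the simplex inequality. -/
theorem sc_criterion (ε : ℝ) (hε : 0 < ε) (hε1 : ε < 1) : ∃ d₀ : ℕ, ∀ d : ℕ, d₀ ≤ d →
    ∀ (K : Set (EuclideanSpace ℝ (Fin d))) (p : Fin (d + 1) → EuclideanSpace ℝ (Fin d)),
      IsCompact K → (interior K).Nonempty → AffineIndependent ℝ p →
      volume K = volume (convexHull ℝ (Set.range p)) →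
      (scCov d K).det ≤ ((1 - ε) / Real.exp 1) ^ (2 * d) * (volume K).toReal ^ 2 →
      scMean d K ≤ scMean d (convexHull ℝ (Set.range p)) := by
  obtain ⟨d₀, h₀⟩ := scN ε hε hε1
  refine ⟨d₀, fun d hd K p hK hi hp hvol hcov => ?_⟩
  have hN := h₀ d hd
  have hup := scUp d K hK hi
  have hlow := sc_simplex p hp
  rw [← hvol] at hlow
  refine le_trans ?_ hlow
  set v : ℝ := (volume K).toReal with hv
  have hv0 : 0 ≤ v := ENNReal.toReal_nonneg
  set t : ℝ := ((1 - ε) / Real.exp 1) ^ d with ht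
  have ht0 : 0 ≤ t := pow_nonneg (div_nonneg (by linarith) (Real.exp_pos 1).le) d
  set c : ℝ := ((d : ℝ) + 1) / (d.factorial : ℝ) with hc
  have hc0 : 0 ≤ c := by positivity
  have h1 : scMean d K ^ 2 ≤ (Real.sqrt c * t * v) ^ 2 := by
    calc scMean d K ^ 2 ≤ c * (scCov d K).det := hup
      _ ≤ c * (((1 - ε) / Real.exp 1) ^ (2 * d) * v ^ 2) := mul_le_mul_of_nonneg_left hcov hc0
      _ = (Real.sqrt c * t * v) ^ 2 := by
          rw [mul_pow, mul_pow, Real.sq_sqrt hc0, ht, ← pow_mul, mul_comm 2 d]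
          ring
  have h2 : scMean d K ≤ Real.sqrt c * t * v :=
    le_of_sq_le_sq h1 (by positivity)
  refine h2.trans ?_
  have h3 : (0 : ℝ) < ((d : ℝ) + 1) ^ (d + 1) := by positivity
  have h4 : Real.sqrt c * t ≤ (∏ k ∈ Finset.range (d + 1), scC (k + 1)) / ((d : ℝ) + 1) ^ (d + 1) := by
    rw [le_div_iff₀ h3]
    exact hN
  calc Real.sqrt c * t * v = v * (Real.sqrt c * t) := by ring
    _ ≤ v * ((∏ k ∈ Finset.range (d + 1), scC (k + 1)) / ((d : ℝ) + 1) ^ (d + 1)) :=
        mul_le_mul_of_nonneg_left h4 hv0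

end Pool.Agent.Lib.MP_29b1bb_gt
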