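import Pool.Agent.Lib.MP_29b1bb_gt.SC.Main
import Pool.Agent.Lib.MP_29b1bb_gt.SC.Iso

/-!
# Comparison with the simplex up to a polynomial factor, in every dimension

`E V(K) ≤ √((d+1)/d!) √det Cov(K)` (`scUp`), `E V(S) ≥ |S| ∏_{k ≤ d+1} (k / √(k+12)) / (d+1)^(d+1)`
(`sc_simplex`) and `det Cov(S) = (d! |S|)² / ((d+1)^(d+1) (d+2)^d)` (`scCov_simplex`) give, for
`|K| = |S|`, `E V(K) √det Cov(S) ≤ √(((d+1)/(d+2))^d 13 C(d+13,13)) √det Cov(K) E V(S)`.
-/

set_option autoImplicit false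

open MeasureTheory Set

namespace Pool.Agent.Lib.MP_29b1bb_gt

private theorem poly_prod (n : ℕ) :
    (∏ k ∈ Finset.range n, scC (k + 1)) ^ 2 * ((n + 12).factorial : ℝ) =
      (n.factorial : ℝ) ^ 2 * (Nat.factorial 12 : ℝ) := by
  induction n with
  | zero => simp
  | succ n ih =>
    have h1 : (((n + 1 + 12).factorial : ℕ) : ℝ) =
        ((n : ℝ) + 13) * (((n + 12).factorial : ℕ) : ℝ) := by
      have h2 : (n + 1 + 12).factorial = (n + 12 + 1) * (n + 12).factorial :=
        Nat.factorial_succ (n + 12)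
      rw [h2]
      push_cast
      ring
    have h2 : scC (n + 1) ^ 2 * ((n : ℝ) + 13) = ((n : ℝ) + 1) ^ 2 := by
      unfold scC
      have h0 : (0 : ℝ) < ((n + 1 : ℕ) : ℝ) + 12 := by positivity
      rw [div_pow, Real.sq_sqrt h0.le]
      push_cast
      have h3 : (n : ℝ) + 1 + 12 = (n : ℝ) + 13 := by ring
      rw [h3]
      have h4 : (n : ℝ) + 13 ≠ 0 := by positivity
      field_simp
    have h5 : (((n + 1).factorial : ℕ) : ℝ) = ((n : ℝ) + 1) * (n.factorial : ℝ) := by
      rw [Nat.factorial_succ n]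
      push_cast
      ring
    rw [Finset.prod_range_succ, mul_pow, h1, h5]
    calc (∏ k ∈ Finset.range n, scC (k + 1)) ^ 2 * scC (n + 1) ^ 2 *
          (((n : ℝ) + 13) * ((n + 12).factorial : ℝ))
        = ((∏ k ∈ Finset.range n, scC (k + 1)) ^ 2 * ((n + 12).factorial : ℝ)) *
          (scC (n + 1) ^ 2 * ((n : ℝ) + 13)) := by ring
      _ = ((n.factorial : ℝ) ^ 2 * (Nat.factorial 12 : ℝ)) * ((n : ℝ) + 1) ^ 2 := by rw [ih, h2]
      _ = _ := by ring

/-- **Comparison with the simplex.** -/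
theorem sc_poly {d : ℕ} (hd : 0 < d) (K : Set (EuclideanSpace ℝ (Fin d)))
    (p : Fin (d + 1) → EuclideanSpace ℝ (Fin d)) (hK : IsCompact K) (hi : (interior K).Nonempty)
    (hp : AffineIndependent ℝ p) (hvol : volume K = volume (convexHull ℝ (Set.range p)))
    (hpos : 0 < scMean d K) :
    scMean d K * Real.sqrt (scCov d (convexHull ℝ (Set.range p))).det <
      Real.sqrt (13 * ((d + 13).choose 13 : ℝ)) * Real.sqrt (scCov d K).det *
        scMean d (convexHull ℝ (Set.range p)) := by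
  have hup := scUp d K hK hi
  have hlow := sc_simplex p hp
  have hcov := scCov_simplex hd p hp
  set S := convexHull ℝ (Set.range p) with hS
  set v : ℝ := (volume S).toReal with hv
  have hv0 : 0 < v := by
    rw [hv, ← hvol]
    exact ENNReal.toReal_pos (Measure.measure_pos_of_nonempty_interior _ hi).ne'
      hK.measure_lt_top.ne
  have hf : 0 < (d.factorial : ℝ) := by exact_mod_cast d.factorial_pos
  set D : ℝ := (d : ℝ) + 1 with hD
  have hD0 : 0 < D := by positivity
  set c : ℝ := D / (d.factorial : ℝ) with hc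
  have hc0 : 0 < c := by positivity
  set x : ℝ := Real.sqrt (scCov d K).det with hx
  have hx0 : 0 ≤ x := Real.sqrt_nonneg _
  have h1 : scMean d K ≤ Real.sqrt c * x := by
    have h := Real.abs_le_sqrt hup
    rw [Real.sqrt_mul hc0.le] at h
    exact (le_abs_self _).trans h
  have hxp : 0 < x := by
    rcases hx0.lt_or_eq with h | h
    · exact h
    · rw [← h, mul_zero] at h1
      linarith
  set y : ℝ := Real.sqrt (scCov d S).det with hy
  have hy0 : 0 ≤ y := Real.sqrt_nonneg _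
  have hdet0 : 0 ≤ (scCov d S).det := by
    by_contra hcon
    push Not at hcon
    have h2 : (0 : ℝ) < D ^ (d + 1) * ((d : ℝ) + 2) ^ d := by positivity
    have h3 := mul_neg_of_neg_of_pos hcon h2
    rw [hcov] at h3
    have h4 : 0 ≤ ((d.factorial : ℝ) * v) ^ 2 := sq_nonneg _
    linarith
  have hy2 : y ^ 2 * (D ^ (d + 1) * ((d : ℝ) + 2) ^ d) = ((d.factorial : ℝ) * v) ^ 2 := by
    rw [hy, Real.sq_sqrt hdet0]
    exact hcov
  set Q : ℝ := ∏ k ∈ Finset.range (d + 1), scC (k + 1) with hQ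
  have hQ0 : 0 < Q := by
    refine Finset.prod_pos fun k _ => ?_
    unfold scC
    positivity
  set G : ℝ := Q / D ^ (d + 1) with hG
  have hG0 : 0 < G := by positivity
  set P : ℝ := Real.sqrt (13 * ((d + 13).choose 13 : ℝ)) with hP
  have hP0 : 0 ≤ P := Real.sqrt_nonneg _
  have hP2 : P ^ 2 = 13 * ((d + 13).choose 13 : ℝ) := Real.sq_sqrt (by positivity)
  -- the comparison of the squares
  have hfac : P ^ 2 * (Nat.factorial 12 : ℝ) * (d.factorial : ℝ) = ((d + 13).factorial : ℝ) := by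
    have h2 := Nat.choose_mul_factorial_mul_factorial (show 13 ≤ d + 13 by omega)
    rw [Nat.add_sub_cancel, Nat.factorial_succ 12] at h2
    have h3 : (((d + 13).choose 13 * ((12 + 1) * Nat.factorial 12) * d.factorial : ℕ) : ℝ) =
        ((d + 13).factorial : ℝ) := by exact_mod_cast h2
    rw [hP2, ← h3]
    push_cast
    ring
  have hQ2 : Q ^ 2 * ((d + 13).factorial : ℝ) =
      (D * (d.factorial : ℝ)) ^ 2 * (Nat.factorial 12 : ℝ) := by
    have h2 := poly_prod (d + 1)
    have h3 : d + 1 + 12 = d + 13 := by ring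
    have h5 : (((d + 1).factorial : ℕ) : ℝ) = D * (d.factorial : ℝ) := by
      rw [Nat.factorial_succ d, hD]
      push_cast
      ring
    rw [h3, h5] at h2
    exact h2
  have h12 : 0 < (Nat.factorial 12 : ℝ) := by exact_mod_cast Nat.factorial_pos 12
  have hPQ : P ^ 2 * Q ^ 2 = D ^ 2 * (d.factorial : ℝ) := by
    have h2 : (P ^ 2 * Q ^ 2) * ((Nat.factorial 12 : ℝ) * (d.factorial : ℝ)) =
        (D ^ 2 * (d.factorial : ℝ)) * ((Nat.factorial 12 : ℝ) * (d.factorial : ℝ)) := by
      calc (P ^ 2 * Q ^ 2) * ((Nat.factorial 12 : ℝ) * (d.factorial : ℝ))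
          = Q ^ 2 * (P ^ 2 * (Nat.factorial 12 : ℝ) * (d.factorial : ℝ)) := by ring
        _ = (D * (d.factorial : ℝ)) ^ 2 * (Nat.factorial 12 : ℝ) := by rw [hfac, hQ2]
        _ = _ := by ring
    exact mul_right_cancel₀ (by positivity) h2
  have hkey : c * y ^ 2 < (P * (v * G)) ^ 2 := by
    have hE : 0 < (D ^ (d + 1) * ((d : ℝ) + 2) ^ d) := by positivity
    have e1 : c * y ^ 2 = v ^ 2 * (d.factorial : ℝ) / (D ^ d * ((d : ℝ) + 2) ^ d) := by
      have h2 : y ^ 2 = ((d.factorial : ℝ) * v) ^ 2 / (D ^ (d + 1) * ((d : ℝ) + 2) ^ d) := by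
        rw [eq_div_iff hE.ne']
        exact hy2
      have h3 : D ^ (d + 1) = D ^ d * D := pow_succ _ _
      rw [h2, hc, h3]
      have h4 : ((d : ℝ) + 2) ≠ 0 := by positivity
      field_simp
    have e2 : (P * (v * G)) ^ 2 = v ^ 2 * (d.factorial : ℝ) / (D ^ d * D ^ d) := by
      have h2 : (P * (v * G)) ^ 2 = v ^ 2 * (P ^ 2 * Q ^ 2) / (D ^ (d + 1)) ^ 2 := by
        rw [hG]
        field_simp
      have h3 : D ^ (d + 1) = D ^ d * D := pow_succ _ _
      rw [h2, hPQ, h3]
      field_simp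
    rw [e1, e2]
    refine div_lt_div_of_pos_left (by positivity) (by positivity) ?_
    refine mul_lt_mul_of_pos_left ?_ (by positivity)
    refine pow_lt_pow_left₀ ?_ hD0.le hd.ne'
    rw [hD]
    linarith
  have hkey2 : Real.sqrt c * y < P * (v * G) := by
    refine lt_of_pow_lt_pow_left₀ 2 (by positivity) ?_
    rw [mul_pow, Real.sq_sqrt hc0.le]
    exact hkey
  calc scMean d K * y ≤ Real.sqrt c * x * y := mul_le_mul_of_nonneg_right h1 hy0
    _ = x * (Real.sqrt c * y) := by ring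
    _ < x * (P * (v * G)) := mul_lt_mul_of_pos_left hkey2 hxp
    _ = P * x * (v * G) := by ring
    _ ≤ P * x * scMean d S := mul_le_mul_of_nonneg_left hlow (mul_nonneg hP0 hx0)

end Pool.Agent.Lib.MP_29b1bb_gt
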