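import Pool.Agent.Lib.MP_29b1bb_gt.SC.M

/-!
# SC-Q: mean length of a projected exponential vector

For a symmetric idempotent `P` with trace `k ≥ 1` (a natural number) and `q(r) = r ⬝ᵥ (P *ᵥ r) ≥ 0`,
`E √q ≥ k/√(k+12)`. Proof: for `z ≥ 0`, `a > 0`: `z ≥ (3/(2a)) z² - z⁴/(2a³)`
(the difference is `z (z-a)² (z+2a)/(2a³)`). Take `z = √q`, `a = √(s+12)`, with `s`
from `scM`: `E z ≥ 3 s/(2a) - (s² + 12 s)/(2a³) = 3s/(2a) - s/(2a) = s/a = s/√(s+12) ≥ k/√(k+12)`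
(`s ↦ s/√(s+12)` is increasing: e.g. `s²(k+12) ≥ k²(s+12)`).
-/

set_option autoImplicit false

open MeasureTheory Set

namespace Pool.Agent.Lib.MP_29b1bb_gt

private theorem ccvQ_nonneg (n : ℕ) (P : Matrix (Fin n) (Fin n) ℝ) (hs : P.transpose = P)
    (hp : P * P = P) (r : Fin n → ℝ) : 0 ≤ r ⬝ᵥ (P.mulVec r) := by
  have h1 : r ⬝ᵥ (P.mulVec r) = (P.mulVec r) ⬝ᵥ (P.mulVec r) := by
    conv_lhs => rw [← hp]
    rw [← Matrix.mulVec_mulVec, Matrix.dotProduct_mulVec, ← Matrix.mulVec_transpose, hs]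
  rw [h1]
  exact Finset.sum_nonneg fun i _ => mul_self_nonneg _

private theorem ccvQ_pt {z a : ℝ} (hz : 0 ≤ z) (ha : 0 < a) :
    (3 / (2 * a)) * z ^ 2 - (1 / (2 * a ^ 3)) * (z ^ 2) ^ 2 ≤ z := by
  have h1 : z - ((3 / (2 * a)) * z ^ 2 - (1 / (2 * a ^ 3)) * (z ^ 2) ^ 2) =
      z * (z - a) ^ 2 * (z + 2 * a) / (2 * a ^ 3) := by
    field_simp
    ring
  have h2 : 0 ≤ z * (z - a) ^ 2 * (z + 2 * a) / (2 * a ^ 3) := by positivity
  linarith

theorem scQ (n : ℕ) (P : Matrix (Fin n) (Fin n) ℝ) (hs : P.transpose = P) (hp : P * P = P)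
    (k : ℕ) (hk : P.trace = k) (hk1 : 1 ≤ k) :
    Integrable (fun r : Fin n → ℝ => Real.sqrt (r ⬝ᵥ (P.mulVec r))) (gam n) ∧
    scC k ≤ ∫ r, Real.sqrt (r ⬝ᵥ (P.mulVec r)) ∂(gam n) := by
  obtain ⟨s, hks, hI1, hI2, hE1, hE2⟩ := scM n P hs hp (k : ℝ) hk
  have hq := ccvQ_nonneg n P hs hp
  have hkr : (1 : ℝ) ≤ k := by exact_mod_cast hk1
  have hspos : 0 < s := by linarith
  have hcont : Continuous (fun r : Fin n → ℝ => Real.sqrt (r ⬝ᵥ (P.mulVec r))) := by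
    apply Real.continuous_sqrt.comp
    apply Continuous.dotProduct continuous_id
    exact Continuous.matrix_mulVec continuous_const continuous_id
  -- the pointwise bound and integrability
  obtain ⟨a, hadef⟩ : ∃ a, a = Real.sqrt (s + 12) := ⟨_, rfl⟩
  have ha2 : a ^ 2 = s + 12 := by rw [hadef, Real.sq_sqrt (by linarith)]
  have hapos : 0 < a := by rw [hadef]; exact Real.sqrt_pos.mpr (by linarith)
  have hpt : ∀ r : Fin n → ℝ, (3 / (2 * a)) * (r ⬝ᵥ (P.mulVec r)) -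
      (1 / (2 * a ^ 3)) * (r ⬝ᵥ (P.mulVec r)) ^ 2 ≤ Real.sqrt (r ⬝ᵥ (P.mulVec r)) := by
    intro r
    have h := ccvQ_pt (Real.sqrt_nonneg (r ⬝ᵥ (P.mulVec r))) hapos
    rwa [Real.sq_sqrt (hq r)] at h
  have hlow : Integrable (fun r : Fin n → ℝ => (3 / (2 * a)) * (r ⬝ᵥ (P.mulVec r)) -
      (1 / (2 * a ^ 3)) * (r ⬝ᵥ (P.mulVec r)) ^ 2) (gam n) :=
    (hI1.const_mul _).sub (hI2.const_mul _)
  have hint : Integrable (fun r : Fin n → ℝ => Real.sqrt (r ⬝ᵥ (P.mulVec r))) (gam n) := by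
    have hB : Integrable (fun r : Fin n → ℝ =>
        (a / 2 + (1 / (2 * a)) * (r ⬝ᵥ (P.mulVec r)))) (gam n) := by
      have hfin : Integrable (fun r : Fin n → ℝ => (r ⬝ᵥ (P.mulVec r))) (gam n) := hI1
      by_cases hft : IsFiniteMeasure (gam n)
      · exact (integrable_const _).add (hfin.const_mul _)
      · exfalso
        apply hft
        infer_instance
    refine hB.mono' hcont.aestronglyMeasurable (Filter.Eventually.of_forall fun r => ?_)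
    rw [Real.norm_of_nonneg (Real.sqrt_nonneg _)]
    have h1 : Real.sqrt (r ⬝ᵥ (P.mulVec r)) ^ 2 = r ⬝ᵥ (P.mulVec r) := Real.sq_sqrt (hq r)
    set z := Real.sqrt (r ⬝ᵥ (P.mulVec r))
    rw [← h1]
    have h2 : a / 2 + 1 / (2 * a) * z ^ 2 - z = (z - a) ^ 2 / (2 * a) := by
      field_simp
      ring
    have h3 : 0 ≤ (z - a) ^ 2 / (2 * a) := by positivity
    linarith
  refine ⟨hint, ?_⟩
  have hge : ∫ r, ((3 / (2 * a)) * (r ⬝ᵥ (P.mulVec r)) -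
      (1 / (2 * a ^ 3)) * (r ⬝ᵥ (P.mulVec r)) ^ 2) ∂(gam n) ≤
      ∫ r, Real.sqrt (r ⬝ᵥ (P.mulVec r)) ∂(gam n) :=
    integral_mono hlow hint hpt
  rw [integral_sub (hI1.const_mul _) (hI2.const_mul _), integral_const_mul, integral_const_mul,
    hE1] at hge
  refine le_trans ?_ hge
  have h1 : (1 / (2 * a ^ 3)) * ∫ r, (r ⬝ᵥ (P.mulVec r)) ^ 2 ∂(gam n) ≤
      (1 / (2 * a ^ 3)) * (s ^ 2 + 12 * s) :=
    mul_le_mul_of_nonneg_left hE2 (by positivity)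
  have h2 : (3 / (2 * a)) * s - (1 / (2 * a ^ 3)) * (s ^ 2 + 12 * s) = s / a := by
    have h3 : s ^ 2 + 12 * s = s * a ^ 2 := by rw [ha2]; ring
    rw [h3]
    field_simp
    ring
  have h4 : scC k ≤ s / a := by
    unfold scC
    have hk12 : 0 < Real.sqrt ((k : ℝ) + 12) := Real.sqrt_pos.mpr (by linarith)
    rw [div_le_div_iff₀ hk12 hapos]
    apply le_of_sq_le_sq _ (by positivity)
    rw [mul_pow, mul_pow, ha2, Real.sq_sqrt (by linarith)]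
    nlinarith [mul_nonneg (by linarith : (0 : ℝ) ≤ k) (by linarith : (0 : ℝ) ≤ s - k)]
  linarith

end Pool.Agent.Lib.MP_29b1bb_gt
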