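import Pool.Agent.Lib.MP_29b1bb_gt.SC.Defs

/-!
# SC-Sq: the second moment of a determinant with independent rows

`E (det Y)^2 = n! det M`, `M i j = E y_i y_j`, for `Y` with independent rows of law `μ`.
-/

set_option autoImplicit false

open MeasureTheory Set

namespace Pool.Agent.Lib.MP_29b1bb_gt

private theorem ccvSq_expand (n : ℕ) (Y : Fin n → Fin n → ℝ) :
    (Matrix.det (Matrix.of Y)) ^ 2 =
      ∑ σ : Equiv.Perm (Fin n), ∑ τ : Equiv.Perm (Fin n),
        (((Equiv.Perm.sign σ : ℤ) : ℝ) * ((Equiv.Perm.sign τ : ℤ) : ℝ)) *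
          ∏ i, (Y i (σ i) * Y i (τ i)) := by
  have h1 : Matrix.det (Matrix.of Y) =
      ∑ σ : Equiv.Perm (Fin n), ((Equiv.Perm.sign σ : ℤ) : ℝ) * ∏ i, Y i (σ i) := by
    rw [← Matrix.det_transpose, Matrix.det_apply']
    rfl
  rw [pow_two, h1, Finset.sum_mul_sum]
  refine Finset.sum_congr rfl fun σ _ => Finset.sum_congr rfl fun τ _ => ?_
  rw [Finset.prod_mul_distrib]
  ring

theorem scSq (n : ℕ) (μ : Measure (Fin n → ℝ)) [IsProbabilityMeasure μ]
    (hμ : ∀ i, MemLp (fun y : Fin n → ℝ => y i) 2 μ) :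
    Integrable (fun Y : Fin n → Fin n → ℝ => (Matrix.det (Matrix.of Y)) ^ 2)
      (Measure.pi fun _ => μ) ∧
    ∫ Y : Fin n → Fin n → ℝ, (Matrix.det (Matrix.of Y)) ^ 2 ∂(Measure.pi fun _ => μ) =
      (n.factorial : ℝ) * Matrix.det (Matrix.of fun i j : Fin n => ∫ y, y i * y j ∂μ) := by
  set M : Matrix (Fin n) (Fin n) ℝ := Matrix.of fun i j : Fin n => ∫ y, y i * y j ∂μ with hM
  have hint2 : ∀ a b : Fin n, Integrable (fun y : Fin n → ℝ => y a * y b) μ := fun a b =>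
    (hμ a).integrable_mul (hμ b)
  have hint : ∀ σ τ : Equiv.Perm (Fin n), Integrable (fun Y : Fin n → Fin n → ℝ =>
      ∏ i, (Y i (σ i) * Y i (τ i))) (Measure.pi fun _ => μ) := by
    intro σ τ
    exact Integrable.fintype_prod (f := fun (i : Fin n) (y : Fin n → ℝ) => y (σ i) * y (τ i))
      (μ := fun _ => μ) fun i => hint2 _ _
  have hval : ∀ σ τ : Equiv.Perm (Fin n), ∫ Y : Fin n → Fin n → ℝ,
      ∏ i, (Y i (σ i) * Y i (τ i)) ∂(Measure.pi fun _ => μ) = ∏ i, M (σ i) (τ i) := by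
    intro σ τ
    rw [integral_fintype_prod_eq_prod (μ := fun _ => μ)
      (fun (i : Fin n) (y : Fin n → ℝ) => y (σ i) * y (τ i))]
    rfl
  have hI : ∀ σ τ : Equiv.Perm (Fin n), Integrable (fun Y : Fin n → Fin n → ℝ =>
      (((Equiv.Perm.sign σ : ℤ) : ℝ) * ((Equiv.Perm.sign τ : ℤ) : ℝ)) *
        ∏ i, (Y i (σ i) * Y i (τ i))) (Measure.pi fun _ => μ) :=
    fun σ τ => (hint σ τ).const_mul _
  constructor
  · simp_rw [ccvSq_expand]
    exact integrable_finsetSum _ fun σ _ => integrable_finsetSum _ fun τ _ => hI σ τ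
  · simp_rw [ccvSq_expand]
    rw [integral_finsetSum _ fun σ _ => integrable_finsetSum _ fun τ _ => hI σ τ]
    have h2 : ∀ σ : Equiv.Perm (Fin n), ∫ Y : Fin n → Fin n → ℝ,
        ∑ τ : Equiv.Perm (Fin n), (((Equiv.Perm.sign σ : ℤ) : ℝ) *
          ((Equiv.Perm.sign τ : ℤ) : ℝ)) * ∏ i, (Y i (σ i) * Y i (τ i))
            ∂(Measure.pi fun _ => μ) = M.det := by
      intro σ
      rw [integral_finsetSum _ fun τ _ => hI σ τ]
      simp_rw [integral_const_mul, hval]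
      have h3 : (M.submatrix σ id).det = ((Equiv.Perm.sign σ : ℤ) : ℝ) * M.det :=
        Matrix.det_permute σ M
      have h4 : (M.submatrix σ id).det = ∑ τ : Equiv.Perm (Fin n),
          ((Equiv.Perm.sign τ : ℤ) : ℝ) * ∏ i, M (σ i) (τ i) := by
        rw [← Matrix.det_transpose, Matrix.det_apply']
        rfl
      have h5 : ((Equiv.Perm.sign σ : ℤ) : ℝ) * ((Equiv.Perm.sign σ : ℤ) : ℝ) = 1 := by
        rcases Int.units_eq_one_or (Equiv.Perm.sign σ) with h | h <;> rw [h] <;> simp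
      calc ∑ τ : Equiv.Perm (Fin n), ((Equiv.Perm.sign σ : ℤ) : ℝ) *
            ((Equiv.Perm.sign τ : ℤ) : ℝ) * ∏ i, M (σ i) (τ i)
          = ((Equiv.Perm.sign σ : ℤ) : ℝ) * ∑ τ : Equiv.Perm (Fin n),
            ((Equiv.Perm.sign τ : ℤ) : ℝ) * ∏ i, M (σ i) (τ i) := by
            rw [Finset.mul_sum]
            refine Finset.sum_congr rfl fun τ _ => ?_
            ring
        _ = M.det := by rw [← h4, h3, ← mul_assoc, h5, one_mul]
    simp_rw [h2]
    rw [Finset.sum_const, Finset.card_univ, Fintype.card_perm, Fintype.card_fin, nsmul_eq_mul]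

end Pool.Agent.Lib.MP_29b1bb_gt
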