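import Pool.Agent.Lib.MP_29b1bb_gt.SC.V
import Pool.Agent.Lib.MP_29b1bb_gt.SC.Sq
import Pool.Agent.Lib.MP_29b1bb_gt.SC.Cv

/-!
# SC-Up: upper bound of the mean volume by the covariance matrix

`(E V_d(K, d+1))² ≤ E V_d(K, d+1)² = (d+1)!/(d!)² det Cov = (d+1)/d! det Cov`.

Proof. Let `μ = (volume K)⁻¹ • volume.restrict K`, a probability measure on `EuclideanSpace`, and
`ν` the law of `y = Fin.cons 1 x : Fin (d+1) → ℝ` under `μ` (`Measure.map`; measurable map). Then
`scMean d K = ∫ x, V(x) ∂(Measure.pi fun _ => μ)` (`Measure.restrict_pi_pi`, `volume_pi`,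
`pi_smul_const` of `Scal.lean` or its ENNReal form; `V(x) = |det (scRow x)| / d!` by `scV`) `= ∫ Y, |det Y| / d! ∂(Measure.pi fun _ => ν)`
(`Measure.pi_map_pi` / `MeasurePreserving` of the coordinatewise map, `integral_map`).
Jensen / Cauchy-Schwarz: `(∫ f)² ≤ ∫ f²` for a probability measure (e.g. `0 ≤ ∫ (f - c)²`, `c = ∫ f`,
or `ConvexOn.map_integral_le`), with `f = |det Y| / d!`, bounded on the support, or `MemLp 2` since
the square is integrable by `scSq`. `scSq` for `ν` (`MemLp` as the coordinates are bounded `ν`-a.e.: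
`K` is bounded) and `scCv` with `m i = ∫ x i ∂μ`, `S i j = ∫ x i x j ∂μ` give the value; the average
`⨍ x in K, f x` is `∫ f ∂μ` (`setAverage_eq`/`average_eq`).
If you need only the inequality with `scCov`: `Matrix.of (fun i j => S i j - m i * m j) = scCov d K`.
-/

set_option autoImplicit false

open MeasureTheory Set

namespace Pool.Agent.Lib.MP_29b1bb_gt

/-- The row `(1, y)`. -/
private def upPhi (d : ℕ) (y : EuclideanSpace ℝ (Fin d)) : Fin (d + 1) → ℝ :=
  (Fin.cons (1 : ℝ) (fun l => y l) : Fin (d + 1) → ℝ)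

private lemma upPhi_meas (d : ℕ) : Measurable (upPhi d) := by
  refine measurable_pi_lambda _ fun i => ?_
  refine Fin.cases ?_ (fun j => ?_) i
  · simp [upPhi]
  · simp only [upPhi, Fin.cons_succ]
    fun_prop

/-- The uniform probability measure of `K`. -/
private noncomputable def upP (d : ℕ) (K : Set (EuclideanSpace ℝ (Fin d))) :
    Measure (EuclideanSpace ℝ (Fin d)) :=
  (volume K)⁻¹ • volume.restrict K

private lemma upP_pi (d : ℕ) (K : Set (EuclideanSpace ℝ (Fin d)))
    (h0 : volume K ≠ 0) (h1 : volume K ≠ ⊤) :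
    Measure.pi (fun _ : Fin (d + 1) => upP d K) =
      ((volume K)⁻¹) ^ (d + 1) •
        (volume : Measure (Fin (d + 1) → EuclideanSpace ℝ (Fin d))).restrict
          (Set.pi Set.univ fun _ => K) := by
  have hfin : ∀ _ : Fin (d + 1), SigmaFinite (upP d K) := by
    intro _
    have : IsFiniteMeasure (volume.restrict K : Measure (EuclideanSpace ℝ (Fin d))) :=
      ⟨by rw [Measure.restrict_apply_univ]; exact h1.lt_top⟩
    have : IsFiniteMeasure (upP d K) := by
      unfold upP
      exact Measure.smul_finite _ (ENNReal.inv_ne_top.2 h0)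
    infer_instance
  have := hfin 0
  symm
  refine (Measure.pi_eq fun s hs => ?_).symm
  rw [volume_pi, Measure.restrict_pi_pi, Measure.smul_apply, Measure.pi_pi]
  simp only [upP, Measure.smul_apply, smul_eq_mul]
  rw [Finset.prod_mul_distrib]
  simp

theorem scUp (d : ℕ) (K : Set (EuclideanSpace ℝ (Fin d))) (hK : IsCompact K)
    (hi : (interior K).Nonempty) :
    scMean d K ^ 2 ≤ ((d : ℝ) + 1) / (d.factorial : ℝ) * (scCov d K).det := by
  have h0 : volume K ≠ 0 := by
    have : 0 < volume (interior K) := isOpen_interior.measure_pos _ hi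
    exact (this.trans_le (measure_mono interior_subset)).ne'
  have h1 : volume K ≠ ⊤ := hK.measure_lt_top.ne
  have hKm : MeasurableSet K := hK.measurableSet
  have hPp : IsProbabilityMeasure (upP d K) := ⟨by
    simp only [upP, Measure.smul_apply, smul_eq_mul, Measure.restrict_apply_univ]
    exact ENNReal.inv_mul_cancel h0 h1⟩
  have hφ := upPhi_meas d
  set μ : Measure (Fin (d + 1) → ℝ) := (upP d K).map (upPhi d) with hμ
  have hμp : IsProbabilityMeasure μ := Measure.isProbabilityMeasure_map hφ.aemeasurable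
  -- boundedness
  obtain ⟨C, hC⟩ := hK.isBounded.exists_norm_le
  have hae : ∀ᵐ x ∂(upP d K), x ∈ K :=
    Measure.ae_smul_measure (ae_restrict_mem hKm) _
  have hmem : ∀ i, MemLp (fun y : Fin (d + 1) → ℝ => y i) 2 μ := by
    intro i
    rw [hμ, memLp_map_measure_iff (measurable_pi_apply i).aestronglyMeasurable hφ.aemeasurable]
    refine MemLp.of_bound ((measurable_pi_apply i).comp hφ).aestronglyMeasurable (max 1 C) ?_
    filter_upwards [hae] with x hx
    refine Fin.cases ?_ (fun j => ?_) i
    · simp [upPhi]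
    · simp only [Function.comp, upPhi, Fin.cons_succ]
      exact ((PiLp.norm_apply_le x j).trans (hC x hx)).trans (le_max_right _ _)
  obtain ⟨hint, hval⟩ := scSq (d + 1) μ hmem
  -- the mean
  have hfac : (0 : ℝ) < (d.factorial : ℝ) := by exact_mod_cast d.factorial_pos
  set G : (Fin (d + 1) → Fin (d + 1) → ℝ) → ℝ :=
    fun Y => |Matrix.det (Matrix.of Y)| / (d.factorial : ℝ) with hG
  have hGm : Measurable G := by
    have hdet : Continuous fun Y : Fin (d + 1) → Fin (d + 1) → ℝ => Matrix.det (Matrix.of Y) := by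
      refine Continuous.matrix_det ?_
      exact continuous_id
    exact (hdet.abs.div_const _).measurable
  have hmean : scMean d K = ∫ Y, G Y ∂(Measure.pi fun _ : Fin (d + 1) => μ) := by
    have e1 : Measure.pi (fun _ : Fin (d + 1) => μ) =
        (Measure.pi fun _ : Fin (d + 1) => upP d K).map (fun x i => upPhi d (x i)) := by
      rw [hμ]
      exact (Measure.pi_map_pi (fun _ => hφ.aemeasurable)).symm
    rw [e1, integral_map _ hGm.aestronglyMeasurable, upP_pi d K h0 h1, integral_smul_measure]
    · unfold scMean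
      rw [div_eq_inv_mul, smul_eq_mul, ENNReal.toReal_pow, ENNReal.toReal_inv, inv_pow]
      congr 1
      refine integral_congr_ae (Filter.Eventually.of_forall fun x => ?_)
      simp only [hG]
      rw [scV]
      rfl
    · exact (measurable_pi_lambda _ fun i => hφ.comp (measurable_pi_apply i)).aemeasurable
  have hG2 : ∀ Y, G Y ^ 2 = (Matrix.det (Matrix.of Y)) ^ 2 / (d.factorial : ℝ) ^ 2 := by
    intro Y
    simp only [hG]
    rw [div_pow, sq_abs]
  have hGL : MemLp G 2 (Measure.pi fun _ : Fin (d + 1) => μ) := by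
    rw [memLp_two_iff_integrable_sq hGm.aestronglyMeasurable]
    simp only [hG2]
    exact hint.div_const _
  have hvar : (∫ Y, G Y ∂(Measure.pi fun _ : Fin (d + 1) => μ)) ^ 2 ≤
      ∫ Y, G Y ^ 2 ∂(Measure.pi fun _ : Fin (d + 1) => μ) := by
    have h := ProbabilityTheory.variance_nonneg G (Measure.pi fun _ : Fin (d + 1) => μ)
    rw [ProbabilityTheory.variance_eq_sub hGL] at h
    simpa [Pi.pow_apply] using h
  rw [hmean]
  refine hvar.trans (le_of_eq ?_)
  simp only [hG2]
  rw [integral_div, hval]
  -- the matrix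
  have hM : (Matrix.of fun i j : Fin (d + 1) => ∫ y, y i * y j ∂μ) =
      Matrix.of (Fin.cons (Fin.cons (1 : ℝ) (fun i : Fin d => ∫ x, x i ∂(upP d K)) :
          Fin (d + 1) → ℝ)
        (fun i => (Fin.cons (∫ x, x i ∂(upP d K)) (fun j : Fin d => ∫ x, x i * x j ∂(upP d K)) :
          Fin (d + 1) → ℝ)) : Fin (d + 1) → Fin (d + 1) → ℝ) := by
    ext i j
    rw [Matrix.of_apply, hμ, integral_map hφ.aemeasurable]
    · refine Fin.cases ?_ (fun i => ?_) i
      · refine Fin.cases ?_ (fun j => ?_) j
        · simp [upPhi]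
        · simp [upPhi]
      · refine Fin.cases ?_ (fun j => ?_) j
        · simp [upPhi]
        · simp [upPhi]
    · exact ((measurable_pi_apply i).mul (measurable_pi_apply j)).aestronglyMeasurable
  rw [hM, scCv]
  have hcov : (Matrix.of fun i j : Fin d => (∫ x, x i * x j ∂(upP d K)) -
      (∫ x, x i ∂(upP d K)) * ∫ x, x j ∂(upP d K)) = scCov d K := by
    ext i j
    simp only [scCov, Matrix.of_apply, setAverage_eq', upP]
  rw [hcov, Nat.factorial_succ]
  push_cast
  field_simp

end Pool.Agent.Lib.MP_29b1bb_gt
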