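import Pool.Agent.Lib.MP_29b1bb_gt.SC.Defs

/-!
# SC-V: the volume of a simplex is `|det (1, x_i)| / d!`

Proof. `Vol.lean` proves (privately: `vol_conv`, copy it, or use `volume_conv_rows` with `p = s`,
`y i = (1 - ∑ x i l, x i 1, …, x i d)`, whose determinant is that of `scRow x` by a column
operation) `volume (conv x) = ofReal |det (scRow x)| * volume (conv s)` with the standard simplex
`s = Fin.cons 0 (fun k => EuclideanSpace.single k 1)`. Remains `scV0 : volume (conv s) = 1 / d!`.
`conv s = {x | 0 ≤ x, ∑ x ≤ 1}`. One way: `v := volume {x : Fin d → ℝ | 0 < x, ∑ x ≤ 1}`, scaling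
gives `volume {0 < x, ∑ x < t} = t^d v`, layer cake
`1 = ∫_{x > 0} e^{-∑ x} dx = ∫_0^∞ e^{-t} volume {0 < x, ∑ x < t} dt = v ∫ t^d e^{-t} dt = v d!`
(`gam_eq_withDensity` and `IsProbabilityMeasure (gam d)` give the left side;
`Real.Gamma_nat_eq_factorial`). Another way: Mathlib has `MeasureTheory.volume_sum_rpow_lt_one`
(with `p = 1`): `volume {x : Fin d → ℝ | ∑ |x i|^p < 1} = ofReal ((2 Γ(2))^d / Γ(d+1)) = 2^d/d!`,
and this set is, up to a null set, the disjoint union of `2^d` reflected copies of `{0 < x, ∑ x < 1}`.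
Third way: induction on `d` with `MeasureTheory.volume_preserving_piFinSuccAbove` (or the layer
`x_0 = t`): `v_{d+1} = ∫_0^1 (1-t)^d v_d dt = v_d/(d+1)`.
-/

set_option autoImplicit false

open MeasureTheory Set

namespace Pool.Agent.Lib.MP_29b1bb_gt

private def ccvV_T (d : ℕ) (t : ℝ) : Set (Fin d → ℝ) := {x | (∀ i, 0 ≤ x i) ∧ ∑ i, x i ≤ t}

private theorem ccvV_meas (d : ℕ) (t : ℝ) : MeasurableSet (ccvV_T d t) := by
  have h1 : IsClosed {x : Fin d → ℝ | ∀ i, 0 ≤ x i} := by
    rw [ofPred_forall]
    exact isClosed_iInter fun i => isClosed_le continuous_const (continuous_apply i)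
  have h2 : IsClosed {x : Fin d → ℝ | ∑ i, x i ≤ t} :=
    isClosed_le (continuous_finsetSum _ fun i _ => continuous_apply i) continuous_const
  exact (h1.inter h2).measurableSet

private theorem ccvV_vol (d : ℕ) : ∀ t : ℝ, 0 ≤ t →
    volume (ccvV_T d t) = ENNReal.ofReal (t ^ d / (d.factorial : ℝ)) := by
  induction d with
  | zero =>
    intro t ht
    have h1 : ccvV_T 0 t = univ := by
      ext x
      simp [ccvV_T, ht]
    rw [h1]
    simp [volume_pi]
  | succ d ih =>
    intro t ht
    have hmp := volume_preserving_piFinSuccAbove (fun _ : Fin (d + 1) => ℝ) 0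
    set S : Set (ℝ × (Fin d → ℝ)) := {p | 0 ≤ p.1 ∧ ((∀ i, 0 ≤ p.2 i) ∧ ∑ i, p.2 i ≤ t - p.1)} with hS
    have hSm : MeasurableSet S := by
      have h1 : IsClosed {p : ℝ × (Fin d → ℝ) | 0 ≤ p.1} := isClosed_le continuous_const continuous_fst
      have h2 : IsClosed {p : ℝ × (Fin d → ℝ) | ∀ i, 0 ≤ p.2 i} := by
        rw [ofPred_forall]
        exact isClosed_iInter fun i =>
          isClosed_le continuous_const ((continuous_apply i).comp continuous_snd)
      have h3 : IsClosed {p : ℝ × (Fin d → ℝ) | ∑ i, p.2 i ≤ t - p.1} :=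
        isClosed_le (continuous_finsetSum _ fun i _ => (continuous_apply i).comp continuous_snd)
          (continuous_const.sub continuous_fst)
      exact (h1.inter (h2.inter h3)).measurableSet
    have hpre : ccvV_T (d + 1) t = (MeasurableEquiv.piFinSuccAbove (fun _ : Fin (d + 1) => ℝ) 0) ⁻¹' S := by
      ext x
      simp only [ccvV_T, hS, mem_ofPred_eq, mem_preimage, MeasurableEquiv.piFinSuccAbove_apply,
        Fin.insertNthEquiv_symm_apply, Fin.zero_succAbove, Fin.forall_fin_succ, Fin.sum_univ_succ,
        Fin.removeNth]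
      constructor
      · rintro ⟨⟨h1, h2⟩, h3⟩
        exact ⟨h1, h2, by linarith⟩
      · rintro ⟨h1, h2, h3⟩
        exact ⟨⟨h1, h2⟩, by linarith⟩
    rw [hpre, hmp.measure_preimage hSm.nullMeasurableSet, Measure.volume_eq_prod,
      Measure.prod_apply hSm]
    have hsec : ∀ a : ℝ, volume (Prod.mk a ⁻¹' S) =
        (Icc 0 t).indicator (fun a => ENNReal.ofReal ((t - a) ^ d / (d.factorial : ℝ))) a := by
      intro a
      by_cases ha : a ∈ Icc 0 t
      · rw [indicator_of_mem ha, ← ih (t - a) (by linarith [ha.2])]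
        congr 1
        ext x
        simp only [hS, ccvV_T, mem_preimage, mem_ofPred_eq]
        constructor
        · rintro ⟨_, h2⟩
          exact h2
        · intro h2
          exact ⟨ha.1, h2⟩
      · rw [indicator_of_notMem ha]
        have h1 : Prod.mk a ⁻¹' S = ∅ := by
          ext x
          simp only [hS, mem_preimage, mem_ofPred_eq, mem_empty_iff_false, iff_false]
          rintro ⟨h1, h2, h3⟩
          have h4 : 0 ≤ ∑ i, x i := Finset.sum_nonneg fun i _ => h2 i
          exact ha ⟨h1, by linarith⟩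
        rw [h1, measure_empty]
    have hfun : (fun a : ℝ => volume (Prod.mk a ⁻¹' S)) =
        (Icc 0 t).indicator (fun a => ENNReal.ofReal ((t - a) ^ d / (d.factorial : ℝ))) :=
      funext hsec
    rw [hfun, lintegral_indicator measurableSet_Icc]
    have hcont : Continuous fun a : ℝ => (t - a) ^ d / (d.factorial : ℝ) := by fun_prop
    rw [← ofReal_integral_eq_lintegral_ofReal]
    · congr 1
      rw [integral_Icc_eq_integral_Ioc, ← intervalIntegral.integral_of_le ht,
        intervalIntegral.integral_div,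
        intervalIntegral.integral_comp_sub_left (fun x => x ^ d) t, integral_pow]
      rw [Nat.factorial_succ]
      push_cast
      have h1 : (d.factorial : ℝ) ≠ 0 := by
        have := d.factorial_pos
        positivity
      have h2 : ((d : ℝ) + 1) ≠ 0 := by positivity
      field_simp
      simp
    · exact (hcont.continuousOn).integrableOn_Icc
    · rw [Filter.EventuallyLE, ae_restrict_iff' measurableSet_Icc]
      refine Filter.Eventually.of_forall fun a ha => ?_
      show 0 ≤ (t - a) ^ d / (d.factorial : ℝ)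
      have h1 : 0 ≤ t - a := by linarith [ha.2]
      positivity

private theorem ccvV_hull (d : ℕ) : convexHull ℝ (range
        (Fin.cons 0 (fun k => EuclideanSpace.single k (1 : ℝ)) :
          Fin (d + 1) → EuclideanSpace ℝ (Fin d))) = (@WithLp.ofLp 2 (Fin d → ℝ)) ⁻¹' ccvV_T d 1 := by
  set s : Fin (d + 1) → EuclideanSpace ℝ (Fin d) :=
    Fin.cons 0 (fun k => EuclideanSpace.single k (1 : ℝ)) with hs
  apply Subset.antisymm
  · refine convexHull_min ?_ ?_
    · rintro _ ⟨i, rfl⟩
      refine Fin.cases ?_ ?_ i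
      · simp [hs, ccvV_T]
      · intro k
        refine ⟨?_, ?_⟩
        · intro l
          simp only [hs, Fin.cons_succ, PiLp.single_apply]
          split_ifs <;> norm_num
        · simp [hs, PiLp.single_apply]
    · intro x hx y hy a b ha hb hab
      refine ⟨?_, ?_⟩
      · intro i
        simp only [WithLp.ofLp_add, WithLp.ofLp_smul, Pi.add_apply, Pi.smul_apply, smul_eq_mul]
        exact add_nonneg (mul_nonneg ha (hx.1 i)) (mul_nonneg hb (hy.1 i))
      · simp only [WithLp.ofLp_add, WithLp.ofLp_smul, Pi.add_apply, Pi.smul_apply, smul_eq_mul,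
          Finset.sum_add_distrib, ← Finset.mul_sum]
        have h1 := mul_le_mul_of_nonneg_left hx.2 ha
        have h2 := mul_le_mul_of_nonneg_left hy.2 hb
        linarith
  · intro x hx
    have h1 : x = ∑ i : Fin (d + 1), (Fin.cons (1 - ∑ k, x k) (fun k => x k) : Fin (d + 1) → ℝ) i • s i := by
      rw [Fin.sum_univ_succ]
      ext l
      simp [hs, WithLp.ofLp_sum, Finset.sum_apply, Pi.single_apply]
    rw [h1]
    refine (convex_convexHull ℝ (range s)).sum_mem ?_ ?_ ?_
    · intro i _
      refine Fin.cases ?_ ?_ i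
      · have := hx.2
        simp only [Fin.cons_zero]
        linarith
      · intro k
        simp only [Fin.cons_succ]
        exact hx.1 k
    · rw [Fin.sum_univ_succ]
      simp
    · intro i _
      exact subset_convexHull ℝ _ (mem_range_self i)

theorem scV0 (d : ℕ) : volume (convexHull ℝ (range
        (Fin.cons 0 (fun k => EuclideanSpace.single k (1 : ℝ)) :
          Fin (d + 1) → EuclideanSpace ℝ (Fin d)))) = ENNReal.ofReal (1 / (d.factorial : ℝ)) := by
  rw [ccvV_hull, (PiLp.volume_preserving_ofLp (Fin d)).measure_preimage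
    (ccvV_meas d 1).nullMeasurableSet, ccvV_vol d 1 zero_le_one, one_pow]

private noncomputable def ccvV_N {d : ℕ} (x : Fin (d + 1) → EuclideanSpace ℝ (Fin d)) :
    Matrix (Fin d) (Fin d) ℝ :=
  Matrix.of fun k l => x k.succ l - x 0 l

private theorem ccvV_det {d : ℕ} (x : Fin (d + 1) → EuclideanSpace ℝ (Fin d)) :
    (scRow x).det = (ccvV_N x).det := by
  set B : Matrix (Fin (d + 1)) (Fin (d + 1)) ℝ :=
    Matrix.of (Fin.cons (Fin.cons (1 : ℝ) (fun l => x 0 l) : Fin (d + 1) → ℝ)
      (fun k => (Fin.cons (0 : ℝ) (fun l => x k.succ l - x 0 l) : Fin (d + 1) → ℝ)) :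
        Fin (d + 1) → Fin (d + 1) → ℝ) with hB
  have h1 : (scRow x).det = B.det := by
    refine Matrix.det_eq_of_forall_row_eq_smul_add_const
      (Fin.cons (0 : ℝ) (fun _ => 1) : Fin (d + 1) → ℝ) 0 rfl ?_
    intro i j
    refine Fin.cases ?_ ?_ i
    · refine Fin.cases ?_ ?_ j <;> simp [scRow, hB]
    · intro i
      refine Fin.cases ?_ ?_ j <;> simp [scRow, hB]
  rw [h1, Matrix.det_succ_column_zero, Fin.sum_univ_succ]
  have h2 : ∀ i : Fin d, B i.succ 0 = 0 := fun i => by simp [hB]
  have h3 : B 0 0 = 1 := by simp [hB]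
  simp only [h2, h3, mul_zero, zero_mul, Finset.sum_const_zero, add_zero, Fin.val_zero, pow_zero,
    one_mul]
  congr 1

private theorem ccvV_conv {d : ℕ} (x : Fin (d + 1) → EuclideanSpace ℝ (Fin d)) :
    volume (convexHull ℝ (range x)) =
      ENNReal.ofReal |(scRow x).det| * volume (convexHull ℝ (range
        (Fin.cons 0 (fun k => EuclideanSpace.single k (1 : ℝ)) :
          Fin (d + 1) → EuclideanSpace ℝ (Fin d)))) := by
  set s : Fin (d + 1) → EuclideanSpace ℝ (Fin d) :=
    Fin.cons 0 (fun k => EuclideanSpace.single k (1 : ℝ)) with hs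
  let b := (EuclideanSpace.basisFun (Fin d) ℝ).toBasis
  let L : EuclideanSpace ℝ (Fin d) →ₗ[ℝ] EuclideanSpace ℝ (Fin d) :=
    Matrix.toLin b b (ccvV_N x).transpose
  have hL : ∀ k : Fin d, L (EuclideanSpace.single k (1 : ℝ)) = x k.succ - x 0 := by
    intro k
    have h1 : EuclideanSpace.single k (1 : ℝ) = b k := by simp [b]
    rw [h1]
    simp only [L, Matrix.toLin_self]
    ext l
    simp only [b, ccvV_N, Matrix.transpose_apply, Matrix.of_apply, OrthonormalBasis.coe_toBasis,
      EuclideanSpace.basisFun_apply, PiLp.sub_apply, WithLp.ofLp_sum, WithLp.ofLp_smul,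
      Finset.sum_apply, Pi.smul_apply, smul_eq_mul, PiLp.single_apply]
    simp
  have hx : x = (fun z => x 0 + z) ∘ (fun z => L z) ∘ s := by
    funext i
    refine Fin.cases ?_ ?_ i
    · simp [hs]
    · intro k
      simp only [Function.comp, hs, Fin.cons_succ]
      rw [hL]
      abel
  have h2 : convexHull ℝ (range x) = (fun z => x 0 + z) '' (L '' convexHull ℝ (range s)) := by
    have h3 : range x = (fun z => x 0 + z) '' (L '' (range s)) := by
      conv_lhs => rw [hx]
      rw [range_comp, range_comp]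
    rw [h3, LinearMap.image_convexHull]
    have := AffineMap.image_convexHull
      ((AffineEquiv.constVAdd ℝ (EuclideanSpace ℝ (Fin d)) (x 0)).toAffineMap) (L '' (range s))
    simpa using this.symm
  rw [h2]
  have h4 : volume ((fun z => x 0 + z) '' (L '' convexHull ℝ (range s))) =
      volume (L '' convexHull ℝ (range s)) := by
    rw [Set.image_add_left]
    exact measure_preimage_add _ _ _
  rw [h4, Measure.addHaar_image_linearMap, LinearMap.det_toLin, Matrix.det_transpose, ccvV_det]

theorem scV (d : ℕ) (x : Fin (d + 1) → EuclideanSpace ℝ (Fin d)) :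
    (volume (convexHull ℝ (range x))).toReal = |(scRow x).det| / (d.factorial : ℝ) := by
  rw [ccvV_conv, scV0, ENNReal.toReal_mul, ENNReal.toReal_ofReal (abs_nonneg _),
    ENNReal.toReal_ofReal (by positivity)]
  ring

end Pool.Agent.Lib.MP_29b1bb_gt
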